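import Pool.Agent.K7.H1.TO.Def
import Pool.Agent.TH826.MK.Variety
set_option autoImplicit false

/-!
The symbols are unramified.
-/

namespace Pool.Agent.K7.H1.TO

open MvPolynomial

open scoped WithZero

open Pool.Agent.TH826.MK

namespace Arr

theorem prod_zpow_sum {G ι : Type*} [CommGroup G] (s : Finset ι) (x : G) (h : ι → ℤ) :
    ∏ i ∈ s, x ^ h i = x ^ ∑ i ∈ s, h i := by
  classical
  induction s using Finset.induction_on with
  | empty => simp
  | insert a s ha ih => rw [Finset.prod_insert ha, Finset.sum_insert ha, ih, zpow_add]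

variable {K : Type*} [Field K] {d m : ℕ} {F : Arr K d m} {lam : K} {L : Type*} [Field L]
  (f : F.TRing lam →+* L)

/-- the value of a monomial -/
noncomputable def xz (δ : Fin (d + 1) → ℤ) : Lˣ :=
  Units.map (f : F.TRing lam →* L) (∏ j, F.tx lam j ^ δ j)

theorem f_mon (δ : Fin (d + 1) → ℤ) : f (F.tpol lam (mon δ)) = (xz f δ : L) := by
  rw [coe_mon]
  rfl

theorem xz_eq (δ : Fin (d + 1) → ℤ) :
    xz f δ = ∏ j, (Units.map (f : F.TRing lam →* L) (F.tx lam j)) ^ δ j := by
  unfold xz
  rw [map_prod]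
  simp only [map_zpow]

theorem f_fac (e : Fin m) (i : Fin (F.r e + 1)) :
    f (F.tpol lam (F.fac e i)) = (xz f (F.al e) : L) - f (F.tcst lam (F.z e i)) := by
  unfold fac
  rw [map_sub, map_sub, f_mon]
  rfl

theorem f_tf (e : Fin m) (i : Fin (F.r e + 1)) :
    f (F.tf lam e i : F.TRing lam) = (xz f (F.al e) : L) - f (F.tcst lam (F.z e i)) := by
  rw [← f_fac]
  rfl

theorem v_cst_le (v : Valuation L ℤᵐ⁰) {c : K} (hc : IsIntegral ℤ c) :
    v (f (F.tcst lam c)) ≤ 1 :=
  val_le_one_of_integral v (IsIntegral.map_of_comp_eq (RingHom.id ℤ) (f.comp (F.tcst lam))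
    (RingHom.ext_int _ _) hc)

theorem v_z (v : Valuation L ℤᵐ⁰) {c : K} (hc : ∃ n : ℕ, 0 < n ∧ c ^ n = 1) :
    v (f (F.tcst lam c)) = 1 := by
  obtain ⟨n, hn, h⟩ := hc
  have h1 : v (f (F.tcst lam c)) ^ n = 1 := by
    rw [← map_pow, ← map_pow, ← map_pow, h, map_one, map_one, map_one]
  exact (pow_eq_one_iff_of_nonneg zero_le hn.ne').1 h1

theorem v_x_of (v : Valuation L ℤᵐ⁰) {T : Fin (d + 1) → Fin m} (hT : (F.mat T).det ≠ 0)
    (h : ∀ l, v (xz f (F.al (T l)) : L) = 1) (j : Fin (d + 1)) :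
    v (Units.map (f : F.TRing lam →* L) (F.tx lam j) : L) = 1 := by
  classical
  set x : Fin (d + 1) → Lˣ := fun j => Units.map (f : F.TRing lam →* L) (F.tx lam j) with hx
  have h1 : ∀ l, v ((∏ j, x j ^ F.al (T l) j : Lˣ) : L) = 1 := fun l => by
    rw [← h l, xz_eq]
  have h2 : ∏ l, (∏ j, x j ^ F.al (T l) j) ^ (F.mat T).adjugate j l = x j ^ (F.mat T).det := by
    have h3 : ∀ l, (∏ i, x i ^ F.al (T l) i) ^ (F.mat T).adjugate j l =
        ∏ i, x i ^ ((F.mat T).adjugate j l * F.al (T l) i) := by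
      intro l
      rw [← Finset.prod_zpow]
      refine Finset.prod_congr rfl fun i _ => ?_
      rw [← zpow_mul, mul_comm]
    simp only [h3]
    rw [Finset.prod_comm]
    have h4 : ∀ i, ∏ l, x i ^ ((F.mat T).adjugate j l * F.al (T l) i) =
        x i ^ (if i = j then (F.mat T).det else 0) := by
      intro i
      rw [prod_zpow_sum]
      congr 1
      have h5 := congrFun (congrFun (Matrix.adjugate_mul (F.mat T)) j) i
      rw [Matrix.mul_apply, Matrix.smul_apply, Matrix.one_apply] at h5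
      rw [show (∑ l, (F.mat T).adjugate j l * F.al (T l) i) =
        ∑ l, (F.mat T).adjugate j l * F.mat T l i from rfl, h5, smul_eq_mul]
      by_cases hij : i = j
      · rw [if_pos hij, if_pos hij.symm, mul_one]
      · rw [if_neg hij, if_neg (Ne.symm hij), mul_zero]
    simp only [h4]
    rw [Finset.prod_eq_single j]
    · rw [if_pos rfl]
    · intro i _ hi
      rw [if_neg hi, zpow_zero]
    · exact fun h => absurd (Finset.mem_univ _) h
  have h3 : v ((x j ^ (F.mat T).det : Lˣ) : L) = 1 := by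
    rw [← h2, Units.coe_prod, map_prod]
    refine Finset.prod_eq_one fun l _ => ?_
    rw [Units.val_zpow_eq_zpow_val, map_zpow₀, h1, one_zpow]
  rw [Units.val_zpow_eq_zpow_val, map_zpow₀] at h3
  obtain ⟨a, ha⟩ := exists_ord v (x j)
  rw [ha, ← WithZero.exp_zsmul, ← WithZero.exp_zero, WithZero.exp_inj] at h3
  rw [ha, ← WithZero.exp_zero, WithZero.exp_inj]
  rcases mul_eq_zero.1 h3 with h4 | h4
  · exact absurd h4 hT
  · exact h4

theorem v_mul_eq_one {a b : ℤᵐ⁰} (ha : a ≤ 1) (hb : b ≤ 1) (h : a * b = 1) : a = 1 ∧ b = 1 := by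
  have h1 : 1 ≤ a := by
    rw [← h]
    exact mul_le_of_le_one_right' hb
  have h2 : 1 ≤ b := by
    rw [← h]
    exact mul_le_of_le_one_left' ha
  exact ⟨le_antisymm ha h1, le_antisymm hb h2⟩

theorem v_fac_of (v : Valuation L ℤᵐ⁰) (hz : ∀ e i, ∃ n : ℕ, 0 < n ∧ F.z e i ^ n = 1)
    (hg : ∀ k, IsIntegral ℤ (F.g.coeff k)) (hlam : IsIntegral ℤ lam)
    (h : ∀ j, v (Units.map (f : F.TRing lam →* L) (F.tx lam j) : L) = 1) (e : Fin m)
    (i : Fin (F.r e + 1)) : v (f (F.tf lam e i : F.TRing lam)) = 1 := by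
  classical
  have hmon : ∀ δ, v (xz f δ : L) = 1 := by
    intro δ
    rw [xz_eq, Units.coe_prod, map_prod]
    refine Finset.prod_eq_one fun j _ => ?_
    rw [Units.val_zpow_eq_zpow_val, map_zpow₀, h, one_zpow]
  have hfac : ∀ e i, v (f (F.tpol lam (F.fac e i))) ≤ 1 := by
    intro e i
    rw [f_fac]
    refine (Valuation.map_sub v _ _).trans (max_le (hmon _).le (v_z f v (hz e i)).le)
  have hgle : v (f (F.tpol lam (rename Sum.inl F.g))) ≤ 1 := by
    conv_lhs => rw [F.g.as_sum]
    rw [map_sum, map_sum, map_sum]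
    refine Valuation.map_sum_le v fun k _ => ?_
    rw [rename_monomial, monomial_eq, map_mul, map_mul, map_mul]
    refine mul_le_one' (v_cst_le f v (hg k)) ?_
    rw [Finsupp.prod, map_prod, map_prod, map_prod]
    refine Finset.prod_le_one' fun j hj => ?_
    rw [map_pow, map_pow, map_pow]
    refine pow_le_one' ?_ _
    obtain ⟨j', hj'⟩ : ∃ j', Sum.inl j' = j := by
      have := Finsupp.mapDomain_support hj
      obtain ⟨j', -, hj'⟩ := Finset.mem_image.1 this
      exact ⟨j', hj'⟩
    rw [← hj']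
    exact (h j').le
  have hΦ : v (f (F.tpol lam (F.Phi lam))) = 1 := by rw [tpol_Phi, map_one, map_one]
  unfold Phi at hΦ
  rw [map_mul, map_mul, map_mul, map_mul, map_mul, map_mul] at hΦ
  have h1 : v (f (F.tpol lam (C lam))) ≤ 1 := v_cst_le f v hlam
  have h2 : v (f (F.tpol lam (rename Sum.inl F.g * mon (-F.ga)))) ≤ 1 := by
    rw [map_mul, map_mul, map_mul, f_mon, hmon, mul_one]
    exact hgle
  have h3 : v (f (F.tpol lam (∏ e, ∏ i, F.fac e i ^ (F.w e i + 1)))) ≤ 1 := by
    simp only [map_prod, map_pow]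
    exact Finset.prod_le_one' fun e _ => Finset.prod_le_one' fun i _ => pow_le_one' (hfac e i) _
  have h4 := (v_mul_eq_one (mul_le_one' h1 h2) h3 hΦ).2
  set P : Pol K d := (∏ i' ∈ Finset.univ.erase i, F.fac e i' ^ (F.w e i' + 1)) *
    ∏ e' ∈ Finset.univ.erase e, ∏ i, F.fac e' i ^ (F.w e' i + 1) with hP
  have h5 : ∏ e, ∏ i, F.fac e i ^ (F.w e i + 1) = F.fac e i * (F.fac e i ^ F.w e i * P) := by
    rw [← Finset.mul_prod_erase Finset.univ (fun e => ∏ i, F.fac e i ^ (F.w e i + 1))
      (Finset.mem_univ e), ← Finset.mul_prod_erase Finset.univ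
      (fun i => F.fac e i ^ (F.w e i + 1)) (Finset.mem_univ i), hP]
    ring
  have h6 : v (f (F.tpol lam (F.fac e i ^ F.w e i * P))) ≤ 1 := by
    rw [map_mul, map_mul, map_mul, map_pow, map_pow, map_pow]
    refine mul_le_one' (pow_le_one' (hfac e i) _) ?_
    rw [hP]
    simp only [map_mul, map_prod, map_pow]
    exact mul_le_one' (Finset.prod_le_one' fun i _ => pow_le_one' (hfac e i) _)
      (Finset.prod_le_one' fun e _ => Finset.prod_le_one' fun i _ => pow_le_one' (hfac e i) _)
  rw [h5, map_mul, map_mul, map_mul] at h4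
  exact (v_mul_eq_one (hfac e i) h6 h4).1

theorem symb_mem_unramified (hz : ∀ e i, ∃ n : ℕ, 0 < n ∧ F.z e i ^ n = 1)
    (hg : ∀ k, IsIntegral ℤ (F.g.coeff k)) (hlam : IsIntegral ℤ lam)
    {T : Fin (d + 1) → Fin m} (hT : (F.mat T).det ≠ 0) (k : ∀ l, Fin (F.r (T l))) :
    KQ.map (d + 1) f (symb (F.ent lam T k)) ∈ Unramified L (d + 1) := by
  rw [KQ.map_symb]
  unfold Unramified
  simp only [Submodule.mem_iInf]
  intro v _
  have hent : ∀ l, ((Units.map (f : F.TRing lam →* L) (F.ent lam T k l) : Lˣ) : L) =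
      f (F.tf lam (T l) (k l).succ : F.TRing lam) / f (F.tf lam (T l) 0 : F.TRing lam) := by
    intro l
    unfold ent
    rw [map_div, Units.val_div_eq_div_val]
    rfl
  by_cases hl : ∃ l, v (xz f (F.al (T l)) : L) ≠ 1
  · obtain ⟨l, hl⟩ := hl
    set z : L := (xz f (F.al (T l)) : L) with hzdef
    set a : L := f (F.tcst lam (F.z (T l) (k l).succ)) with ha
    set b : L := f (F.tcst lam (F.z (T l) 0)) with hb
    have hva : v a = 1 := v_z f v (hz _ _)
    have hvb : v b = 1 := v_z f v (hz _ _)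
    have hb0 : b ≠ 0 := by
      intro h
      rw [h, map_zero] at hvb
      exact zero_ne_one hvb
    have hub : z - b ≠ 0 := by
      have := (Units.map (f : F.TRing lam →* L) (F.tf lam (T l) 0)).ne_zero
      rw [← f_tf]
      exact this
    have hab : v (a - b) ≤ 1 := (Valuation.map_sub v _ _).trans (max_le hva.le hvb.le)
    obtain ⟨n, hn, han⟩ : ∃ n : ℕ, 0 < n ∧ (a / b) ^ n = 1 := by
      obtain ⟨n1, hn1, h1⟩ := hz (T l) (k l).succ
      obtain ⟨n2, hn2, h2⟩ := hz (T l) 0
      refine ⟨n1 * n2, Nat.mul_pos hn1 hn2, ?_⟩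
      have h3 : a ^ n1 = 1 := by rw [ha, ← map_pow, ← map_pow, h1, map_one, map_one]
      have h4 : b ^ n2 = 1 := by rw [hb, ← map_pow, ← map_pow, h2, map_one, map_one]
      rw [div_pow, pow_mul, h3, one_pow, mul_comm, pow_mul, h4, one_pow, div_one]
    refine mem_unitPart_of_pow v l _ hn.ne' ?_
    rw [hent, f_tf, f_tf]
    change v (((z - a) / (z - b)) ^ n - 1) < 1
    rcases lt_or_gt_of_ne hl with h1 | h1
    · -- a zero
      have hzb : v (z - b) = 1 := by
        rw [Valuation.map_sub_eq_of_lt_right v (by rw [hvb]; exact h1)]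
        exact hvb
      have h2 : v ((z - a) / (z - b) - a / b) < 1 := by
        have e : (z - a) / (z - b) - a / b = z * (b - a) / (b * (z - b)) := by
          field_simp
          ring
        rw [e, map_div₀, map_mul, map_mul, hvb, hzb, one_mul, div_one, Valuation.map_sub_swap]
        exact mul_lt_one_of_lt_of_le h1 hab
      have h3 : v ((z - a) / (z - b)) ≤ 1 := by
        have e : (z - a) / (z - b) = ((z - a) / (z - b) - a / b) + a / b := by ring
        rw [e]
        refine (Valuation.map_add v _ _).trans (max_le h2.le ?_)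
        rw [map_div₀, hva, hvb, div_one]
      have h4 : ((z - a) / (z - b)) ^ n - 1 = ((z - a) / (z - b) - a / b) *
          ∑ i ∈ Finset.range n, ((z - a) / (z - b)) ^ i * (a / b) ^ (n - 1 - i) := by
        rw [mul_comm, Commute.geom_sum₂_mul (Commute.all _ _), han]
      rw [h4, map_mul]
      refine mul_lt_one_of_lt_of_le h2 ?_
      refine Valuation.map_sum_le v fun i _ => ?_
      rw [map_mul, map_pow, map_pow, map_div₀ v a b, hva, hvb, div_one, one_pow, mul_one]
      exact pow_le_one' h3 _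
    · -- a pole
      have hzb : v (z - b) = v z := by
        rw [Valuation.map_sub_eq_of_lt_left v (by rw [hvb]; exact h1)]
      have h2 : v ((z - a) / (z - b) - 1) < 1 := by
        have e : (z - a) / (z - b) - 1 = (b - a) / (z - b) := by
          field_simp
          ring
        rw [e, map_div₀, hzb, Valuation.map_sub_swap]
        rw [div_lt_one₀ (zero_lt_one.trans h1)]
        exact hab.trans_lt h1
      have h3 : v ((z - a) / (z - b)) = 1 := val_one_of_sub_one h2
      have h4 : ((z - a) / (z - b)) ^ n - 1 = ((z - a) / (z - b) - 1) *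
          ∑ i ∈ Finset.range n, ((z - a) / (z - b)) ^ i * (1 : L) ^ (n - 1 - i) := by
        rw [mul_comm, Commute.geom_sum₂_mul (Commute.all _ _), one_pow]
      rw [h4, map_mul]
      refine mul_lt_one_of_lt_of_le h2 ?_
      refine Valuation.map_sum_le v fun i _ => ?_
      rw [map_mul, map_pow, h3, one_pow, one_pow, map_one, mul_one]
  · push Not at hl
    have hx := v_x_of f v hT hl
    refine Submodule.subset_span ⟨_, fun l => ?_, rfl⟩
    rw [hent, map_div₀, v_fac_of f v hz hg hlam hx, v_fac_of f v hz hg hlam hx, div_one]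

end Arr

end Pool.Agent.K7.H1.TO
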