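import Pool.Agent.K7.H1.TO.Tor
import Pool.Agent.K7.H1.TO.Unr
import Pool.Agent.TH577.UA.Comb
import Pool.Agent.TH826.SX.Final
set_option autoImplicit false

/-!
The main theorem on toric arrangements.
-/

namespace Pool.Agent.K7.H1.TO

open MvPolynomial

open Pool.Agent.TH826.MK

open Pool.Agent.TH826.SX (det_ne_zero_near)

open Pool.Agent.TH577.UA (stp det_ne_zero_of_tri)

namespace Arr

variable {K : Type*} [Field K] {d m : ℕ} {F : Arr K d m}

open Classical in
/-- the order of an entry at the vertex -/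
noncomputable def ordn (σ : K →+* ℂ) (F : Arr K d m) (P : Fin (d + 1) → ℂ) (e : Fin m)
    (i : Fin (F.r e + 1)) : ℝ := if ∏ j, P j ^ F.al e j = σ (F.z e i) then 1 else 0

theorem lead_eq (σ : K →+* ℂ) (T : Fin (d + 1) → Fin m) (P : Fin (d + 1) → ℂ)
    (T' : Fin (d + 1) → Fin m) (k' : ∀ l, Fin (F.r (T' l))) :
    F.lead σ T P T' k' = (∏ l, (ordn σ F P (T' l) (k' l).succ - ordn σ F P (T' l) 0)) *
      (Matrix.of fun l j => (stp (top F T (T' l)) j : ℝ)).det := by
  rw [← Matrix.det_mul_column]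
  unfold lead
  congr 1
  ext l j
  simp only [Matrix.of_apply]
  unfold muT ordn
  rw [sub_mul]
  congr 1
  · split_ifs
    · rw [one_mul]
    · rw [zero_mul]
      simp
  · split_ifs
    · rw [one_mul]
    · rw [zero_mul]
      simp

theorem det_stp : (Matrix.of fun l j : Fin (d + 1) => (stp l j : ℝ)).det = 1 := by
  rw [Matrix.det_of_isUpperTriangular]
  · refine Finset.prod_eq_one fun i _ => ?_
    rw [Matrix.of_apply]
    unfold stp
    rw [if_pos le_rfl, Nat.cast_one]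
  · intro i j hij
    have hij' : j < i := hij
    rw [Matrix.of_apply]
    unfold stp
    rw [if_neg (not_le.2 hij'), Nat.cast_zero]

theorem lead_self (σ : K →+* ℂ) (hinj : ∀ e, Function.Injective (F.z e))
    {T : Fin (d + 1) → Fin m} (hT : (F.mat T).det ≠ 0) {P : Fin (d + 1) → ℂ}
    {k : ∀ l, Fin (F.r (T l))}
    (hk : ∀ l, ∏ j, P j ^ F.al (T l) j = σ (F.z (T l) (k l).succ)) :
    F.lead σ T P T k ≠ 0 := by
  rw [lead_eq]
  refine mul_ne_zero (Finset.prod_ne_zero_iff.2 fun l _ => ?_) ?_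
  · unfold ordn
    rw [if_pos (hk l), if_neg, sub_zero]
    · exact one_ne_zero
    · rw [hk l]
      intro h
      exact absurd (hinj _ (σ.injective h)) (Fin.succ_ne_zero _)
  · simp only [top_T hT]
    rw [det_stp]
    exact one_ne_zero

theorem lead_other (σ : K →+* ℂ) (hinj : ∀ e, Function.Injective (F.z e))
    {T : Fin (d + 1) → Fin m} (hm : StrictMono T) (hT : (F.mat T).det ≠ 0)
    {P : Fin (d + 1) → ℂ} {k : ∀ l, Fin (F.r (T l))}
    (hk : ∀ l, ∏ j, P j ^ F.al (T l) j = σ (F.z (T l) (k l).succ))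
    (hn : ∀ e i, (∀ l, T l ≠ e) → ∏ j, P j ^ F.al e j = σ (F.z e i) →
      ∃ l, e < T l ∧ (F.mat (Function.update T l e)).det ≠ 0)
    {T' : Fin (d + 1) → Fin m} (hm' : StrictMono T') {k' : ∀ l, Fin (F.r (T' l))}
    (h : F.lead σ T P T' k' ≠ 0) :
    (⟨T, k⟩ : (T : Fin (d + 1) → Fin m) × (∀ l, Fin (F.r (T l)))) = ⟨T', k'⟩ ∨
      ∑ l, (T' l : ℕ) < ∑ l, (T l : ℕ) := by
  rw [lead_eq] at h
  have h1 : ∀ l, ordn σ F P (T' l) (k' l).succ - ordn σ F P (T' l) 0 ≠ 0 := fun l =>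
    Finset.prod_ne_zero_iff.1 (left_ne_zero_of_mul h) l (Finset.mem_univ l)
  have h2 : Function.Injective fun l => top F T (T' l) := by
    intro a b hab
    by_contra hne
    refine right_ne_zero_of_mul h (Matrix.det_zero_of_row_eq hne (funext fun j => ?_))
    rw [Matrix.of_apply, Matrix.of_apply]
    have h3 : top F T (T' a) = top F T (T' b) := hab
    rw [h3]
  have h3 : ∀ l, ∃ i, ∏ j, P j ^ F.al (T' l) j = σ (F.z (T' l) i) := by
    intro l
    by_contra hcon
    push Not at hcon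
    refine h1 l ?_
    unfold ordn
    rw [if_neg (hcon _), if_neg (hcon _), sub_zero]
  have hle : ∀ l, T' l ≤ T (top F T (T' l)) := by
    intro l
    by_cases h4 : ∃ j, T j = T' l
    · obtain ⟨j, hj⟩ := h4
      rw [← hj, top_T hT]
    · push Not at h4
      obtain ⟨i, hi⟩ := h3 l
      obtain ⟨l0, h5, h6⟩ := hn (T' l) i h4 hi
      have h7 : ((F.mat (Function.update T l0 (T' l))).det : ℂ) ≠ 0 := by exact_mod_cast h6
      rw [det_update hT] at h7
      exact h5.le.trans (hm.monotone (le_top (left_ne_zero_of_mul h7)))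
  have hsum : ∑ l, (T (top F T (T' l)) : ℕ) = ∑ l, (T l : ℕ) :=
    (Function.Injective.bijective_of_finite h2).sum_comp fun l => (T l : ℕ)
  by_cases heq : ∀ l, T' l = T (top F T (T' l))
  · left
    have hTT : T' = T := by
      refine (StrictMono.range_inj hm' hm).1 ?_
      have h4 : T' = T ∘ fun l => top F T (T' l) := funext heq
      rw [h4, Set.range_comp, (Function.Injective.bijective_of_finite h2).2.range_eq,
        Set.image_univ]
    subst hTT
    congr 1
    funext l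
    have h4 := h1 l
    unfold ordn at h4
    rw [if_neg (c := ∏ j, P j ^ F.al (T' l) j = σ (F.z (T' l) 0)), sub_zero] at h4
    · by_contra hne
      refine h4 (if_neg ?_)
      rw [hk l]
      intro h5
      exact hne (Fin.succ_injective _ (hinj _ (σ.injective h5)))
    · rw [hk l]
      intro h5
      exact absurd (hinj _ (σ.injective h5)) (Fin.succ_ne_zero _)
  · right
    push Not at heq
    obtain ⟨l, hl⟩ := heq
    rw [← hsum]
    exact Finset.sum_lt_sum (fun l _ => hle l) ⟨l, Finset.mem_univ l,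
      lt_of_le_of_ne (hle l) fun h => hl (Fin.ext h)⟩

theorem exists_tori (σ : K →+* ℂ) (hα : ∀ e, F.al e ≠ 0) (hz : ∀ e i, F.z e i ≠ 0)
    (hinj : ∀ e, Function.Injective (F.z e)) (hg : F.g ≠ 0) :
    ∃ C : ℝ, ∀ lam : K, C ≤ ‖σ lam‖ →
      ∃ Γ : Ix σ F → Torus (F.TRing lam) d,
        (∀ s, (∀ θ x, (Γ s).e θ (F.tcst lam x) = σ x) ∧
          ∀ θ, ∃ j, (Γ s).e θ (F.tpol lam (dlog j (F.Phi lam))) ≠ 0) ∧
        (Matrix.of fun s s' : Ix σ F =>
          (Γ s).reg (symb (F.ent lam s'.1.1 s'.1.2))).det ≠ 0 := by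
  classical
  choose P hP hk hn using fun s : Ix σ F => s.2.2.2
  have hex := fun s : Ix σ F => by
    haveI : Nonempty (Ix σ F) := ⟨s⟩
    exact exists_torus (F := F) σ s.2.2.1 (hP s) hα hz hg (hk s)
      (fun s' : Ix σ F => s'.1.1) (fun s' => s'.1.2)
  choose D hD0 hT using hex
  set M0 : Matrix (Ix σ F) (Ix σ F) ℝ := Matrix.of fun s s' =>
    D s * F.lead σ s.1.1 (P s) s'.1.1 s'.1.2 with hM0
  have hM : M0.det ≠ 0 := by
    have h1 : M0.det = (∏ s, D s) *
        (Matrix.of fun s s' : Ix σ F => F.lead σ s.1.1 (P s) s'.1.1 s'.1.2).det := by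
      rw [← Matrix.det_mul_column]
      rfl
    rw [h1]
    refine mul_ne_zero (Finset.prod_ne_zero_iff.2 fun s _ => hD0 s) ?_
    refine det_ne_zero_of_tri (fun s : Ix σ F => ∑ l, (s.1.1 l : ℕ)) _ (fun s => ?_)
      (fun s s' h => ?_)
    · rw [Matrix.of_apply]
      exact lead_self σ hinj s.2.2.1 (hk s)
    · rw [Matrix.of_apply] at h
      rcases lead_other σ hinj s.2.1 s.2.2.1 (hk s) (hn s) s'.2.1 h with h1 | h1
      · exact Or.inl (Subtype.ext h1)
      · exact Or.inr h1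
  obtain ⟨δ, hδ, hdet⟩ := det_ne_zero_near M0 hM
  choose Λ hΛ1 hΛ using fun s : Ix σ F => hT s (δ / 2) (by linarith)
  set C : ℝ := ∑ s, |Λ s| + 2 with hC
  have hsum : 0 ≤ ∑ s, |Λ s| := Finset.sum_nonneg fun J _ => abs_nonneg _
  have hΛC : ∀ s, Λ s ≤ C := by
    intro s
    have h1 := Finset.single_le_sum (f := fun s => |Λ s|) (fun s _ => abs_nonneg _)
      (Finset.mem_univ s)
    have h2 := le_abs_self (Λ s)
    have h3 : |Λ s| ≤ ∑ s, |Λ s| := h1
    linarith
  refine ⟨C, fun lam hlam => ?_⟩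
  choose Γ hΓ1 hΓ3 hΓ2 using fun s => hΛ s lam ((hΛC s).trans hlam)
  refine ⟨Γ, fun s => ⟨hΓ1 s, hΓ3 s⟩, ?_⟩
  have hs : -Real.log ‖σ lam‖ ≠ 0 := by
    have : 0 < Real.log ‖σ lam‖ := Real.log_pos (by linarith)
    linarith
  set s0 : ℝ := -Real.log ‖σ lam‖ with hsdef
  have h1 : (Matrix.of fun s s' : Ix σ F =>
      (Γ s).reg (symb (F.ent lam s'.1.1 s'.1.2)) / s0).det ≠ 0 := by
    refine hdet _ fun s s' => ?_
    rw [hM0, Matrix.of_apply, Matrix.of_apply, mul_comm]
    exact lt_of_le_of_lt (hΓ2 s s') (show δ / 2 < δ by linarith)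
  have h2 : (Matrix.of fun s s' : Ix σ F =>
      (Γ s).reg (symb (F.ent lam s'.1.1 s'.1.2))) =
      s0 • (Matrix.of fun s s' : Ix σ F =>
        (Γ s).reg (symb (F.ent lam s'.1.1 s'.1.2)) / s0) := by
    ext s s'
    rw [Matrix.smul_apply, Matrix.of_apply, Matrix.of_apply, smul_eq_mul]
    field_simp
  rw [h2, Matrix.det_smul]
  exact mul_ne_zero (pow_ne_zero _ hs) h1

/-- existence of the vertices -/
theorem exists_vertex (σ : K →+* ℂ) (hz : ∀ e i, F.z e i ≠ 0) {T : Fin (d + 1) → Fin m}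
    (hT : (F.mat T).det ≠ 0) (k : ∀ l, Fin (F.r (T l))) :
    ∃ P : Fin (d + 1) → ℂ, (∀ j, P j ≠ 0) ∧
      ∀ l, ∏ j, P j ^ F.al (T l) j = σ (F.z (T l) (k l).succ) := by
  classical
  refine ⟨xs F T (fun _ => 1) fun l => Complex.log (σ (F.z (T l) (k l).succ)),
    xs_ne (fun _ => one_ne_zero) _, fun l => ?_⟩
  rw [prod_xs]
  simp only [one_zpow, Finset.prod_const_one, one_mul, qv_T hT]
  rw [Finset.sum_eq_single l]
  · rw [if_pos rfl, one_mul, Complex.exp_log ((map_ne_zero σ).2 (hz _ _))]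
  · intro i _ hi
    rw [if_neg (Ne.symm hi), zero_mul]
  · exact fun h => absurd (Finset.mem_univ _) h

/-- in a simple arrangement all bases are admitted -/
theorem nbc_of_simple (σ : K →+* ℂ) (hz : ∀ e i, F.z e i ≠ 0)
    (hs : ∀ P : Fin (d + 1) → ℂ, (∀ j, P j ≠ 0) →
      {e | ∃ i, ∏ j, P j ^ F.al e j = σ (F.z e i)}.ncard ≤ d + 1)
    {T : Fin (d + 1) → Fin m} (hm : StrictMono T) (hT : (F.mat T).det ≠ 0)
    (k : ∀ l, Fin (F.r (T l))) : Nbc σ F T k := by
  classical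
  obtain ⟨P, hP, hk⟩ := exists_vertex (F := F) σ hz hT k
  refine ⟨hm, hT, P, hP, hk, fun e i he hi => ?_⟩
  exfalso
  have h1 := hs P hP
  have h2 : (Set.range T ∪ {e}) ⊆ {e | ∃ i, ∏ j, P j ^ F.al e j = σ (F.z e i)} := by
    rintro e' (⟨l, rfl⟩ | rfl)
    · exact ⟨_, hk l⟩
    · exact ⟨i, hi⟩
  have h3 := Set.ncard_le_ncard h2 (Set.toFinite _)
  have h4 : (Set.range T ∪ {e}).ncard = d + 2 := by
    rw [Set.union_singleton, Set.ncard_insert_of_notMem (by rintro ⟨l, hl⟩; exact he l hl)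
      (Set.toFinite _), Set.ncard_range_of_injective hm.injective, Nat.card_eq_fintype_card,
      Fintype.card_fin]
  omega

open Classical in
/-- the number of the bases in a simple arrangement -/
theorem card_Ix (σ : K →+* ℂ) (hz : ∀ e i, F.z e i ≠ 0)
    (hs : ∀ P : Fin (d + 1) → ℂ, (∀ j, P j ≠ 0) →
      {e | ∃ i, ∏ j, P j ^ F.al e j = σ (F.z e i)}.ncard ≤ d + 1) :
    Nat.card (Ix σ F) = ∑ T : Fin (d + 1) → Fin m with StrictMono T ∧ (F.mat T).det ≠ 0,
      ∏ l, F.r (T l) := by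
  have e1 : Nat.card (Ix σ F) =
      Nat.card {s : (T : Fin (d + 1) → Fin m) × (∀ l, Fin (F.r (T l))) //
        StrictMono s.1 ∧ (F.mat s.1).det ≠ 0} := by
    refine Nat.card_congr (Equiv.subtypeEquivRight fun s => ⟨fun h => ⟨h.1, h.2.1⟩, fun h => ?_⟩)
    exact nbc_of_simple σ hz hs h.1 h.2 s.2
  rw [e1, Nat.card_eq_fintype_card, Fintype.card_subtype, Finset.card_filter,
    Fintype.sum_sigma, Finset.sum_filter]
  refine Finset.sum_congr rfl fun T _ => ?_
  by_cases h : StrictMono T ∧ (F.mat T).det ≠ 0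
  · rw [if_pos h, Finset.sum_congr rfl fun x _ => if_pos h, Finset.sum_const, Finset.card_univ,
      Fintype.card_pi]
    simp only [Fintype.card_fin, smul_eq_mul, mul_one]
  · rw [if_neg h, Finset.sum_congr rfl fun x _ => if_neg h, Finset.sum_const_zero]

end Arr

end Pool.Agent.K7.H1.TO
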