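import Pool.Agent.K7.H1.AH.Grad
set_option autoImplicit false

/-!
Monomial charts, linear forms and polynomials in the chart.
-/

namespace Pool.Agent.K7.H1.TO

open Pool.Agent.TH577.UA (mmon mmon_add mmon_zero_ne mmon_zero_eq contDiff_mmon stp seg stp_add)

open Pool.Agent.K7.H1.AH (crd mmon_eq ch crd_ch mmon_ch ch_zero contDiff_ch wg wg_inj ax ax_ne
  sum_ax det_ax)

variable {d : ℕ}

/-- the entire function `(exp z - 1) / z` -/
noncomputable def E : ℂ → ℂ := dslope Complex.exp 0

theorem E_zero : E 0 = 1 := by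
  unfold E
  rw [dslope_same, Complex.deriv_exp, Complex.exp_zero]

theorem exp_sub_one (z : ℂ) : Complex.exp z - 1 = z * E z := by
  have h := sub_smul_dslope Complex.exp 0 z
  rw [sub_zero, smul_eq_mul, Complex.exp_zero] at h
  exact h.symm

theorem contDiff_E : ContDiff ℂ 2 E := by
  have h : Differentiable ℂ E := by
    rw [← differentiableOn_univ]
    exact (Complex.differentiableOn_dslope Filter.univ_mem).2
      Complex.differentiable_exp.differentiableOn
  exact h.contDiff

theorem prod_mmon_pow (ν : Fin (d + 1) → Fin (d + 1) → ℕ) (β : Fin (d + 1) → ℕ)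
    (t : (Fin d → ℂ) × ℂ) :
    ∏ l, mmon (ν l) t ^ β l = mmon (fun i => ∑ l, β l * ν l i) t := by
  simp only [mmon_eq, ← Finset.prod_pow]
  rw [Finset.prod_comm]
  refine Finset.prod_congr rfl fun j _ => ?_
  rw [← Finset.prod_pow_eq_pow_sum]
  refine Finset.prod_congr rfl fun i _ => ?_
  rw [← pow_mul, mul_comm]

/-- the cumulative exponents -/
def cum (β : Fin (d + 1) → ℕ) (i : Fin (d + 1)) : ℕ := ∑ l, β l * stp l i

theorem cum_le (β : Fin (d + 1) → ℕ) (i : Fin (d + 1)) : cum β i ≤ ∑ l, β l := by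
  unfold cum stp
  refine Finset.sum_le_sum fun l _ => ?_
  split_ifs
  · rw [mul_one]
  · rw [mul_zero]
    exact Nat.zero_le _

theorem cum_inj {β γ : Fin (d + 1) → ℕ} (h : cum β = cum γ) : β = γ := by
  classical
  funext i
  induction i using WellFoundedLT.induction with
  | ind i ih =>
    have h1 : cum β i = cum γ i := congrFun h i
    unfold cum at h1
    rw [← Finset.add_sum_erase _ _ (Finset.mem_univ i),
      ← Finset.add_sum_erase (a := i) Finset.univ (fun l => γ l * stp l i)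
        (Finset.mem_univ i)] at h1
    have h2 : ∑ l ∈ Finset.univ.erase i, β l * stp l i =
        ∑ l ∈ Finset.univ.erase i, γ l * stp l i := by
      refine Finset.sum_congr rfl fun l hl => ?_
      rcases lt_or_gt_of_ne (Finset.ne_of_mem_erase hl) with h3 | h3
      · rw [ih l h3]
      · unfold stp
        rw [if_neg (not_le.2 h3), mul_zero, mul_zero]
    have h3 : stp i i = 1 := by
      unfold stp
      rw [if_pos le_rfl]
    rw [h2, h3, mul_one, mul_one] at h1
    omega

/-- A nonzero polynomial in the functions `s_l φ(s_l)`, `s_l = ∏_{k ≥ l} t_k`, is the product of a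
monomial and of a function without zeros in a suitable chart. -/
theorem exists_chart2 {G : MvPolynomial (Fin (d + 1)) ℂ} (hG : G ≠ 0) {φ : ℂ → ℂ}
    (hφ : ContDiff ℂ 2 φ) (hφ0 : φ 0 ≠ 0) :
    ∃ (A : Fin (d + 1) → Fin (d + 1) → ℕ) (β : Fin (d + 1) → ℕ) (H : (Fin d → ℂ) × ℂ → ℂ),
      (∀ i j, A i j ≠ 0) ∧ (Matrix.of fun i j => (A i j : ℝ)).det ≠ 0 ∧ ContDiff ℂ 2 H ∧
      H 0 ≠ 0 ∧ ∀ y, MvPolynomial.eval
        (fun l => mmon (stp l) (ch A y) * φ (mmon (stp l) (ch A y))) G = mmon β y * H y := by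
  classical
  set M : ℕ := G.totalDegree + 1 with hM
  have hM0 : 0 < M := Nat.succ_pos _
  obtain ⟨β0, hβ0, hmin⟩ := Finset.exists_min_image G.support
    (fun β => wg M (cum (β : Fin (d + 1) → ℕ))) (MvPolynomial.support_nonempty.2 hG)
  have hlt : ∀ β ∈ G.support, ∀ i, cum (β : Fin (d + 1) → ℕ) i < M := by
    intro β hβ i
    have h1 : ∑ l, β l = β.sum fun _ e => e :=
      (Finsupp.sum_fintype β (fun _ e => e) fun _ => rfl).symm
    refine Nat.lt_succ_of_le ((cum_le _ i).trans ?_)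
    rw [h1]
    exact MvPolynomial.le_totalDegree hβ
  have hstrict : ∀ β ∈ G.support, β ≠ β0 →
      wg M (cum (β0 : Fin (d + 1) → ℕ)) < wg M (cum (β : Fin (d + 1) → ℕ)) := by
    intro β hβ hne
    refine lt_of_le_of_ne (hmin β hβ) fun h => hne ?_
    exact DFunLike.coe_injective (cum_inj (wg_inj (hlt β0 hβ0) (hlt β hβ) h).symm)
  set ex : (Fin (d + 1) → ℕ) → Fin (d + 1) → ℕ :=
    fun β j => M * wg M (cum β) + cum β j with hex
  have hle : ∀ β ∈ G.support, β ≠ β0 → ∀ j, ex β0 j < ex β j := by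
    intro β hβ hne j
    have h1 := hstrict β hβ hne
    have h2 := hlt β0 hβ0 j
    simp only [hex]
    have h3 : M * wg M (cum (β0 : Fin (d + 1) → ℕ)) + M ≤
        M * wg M (cum (β : Fin (d + 1) → ℕ)) := by
      rw [← Nat.mul_succ]
      exact Nat.mul_le_mul_left _ h1
    omega
  have hs : ∀ l : Fin (d + 1),
      ContDiff ℂ 2 fun y : (Fin d → ℂ) × ℂ => mmon (stp l) (ch (ax M) y) := fun l =>
    (contDiff_mmon _).comp contDiff_ch
  have hs0 : ∀ l, mmon (stp l) (ch (ax M) (0 : (Fin d → ℂ) × ℂ)) = 0 := fun l => by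
    rw [ch_zero (ax_ne hM0)]
    exact mmon_zero_ne ⟨l, by unfold stp; rw [if_pos le_rfl]; exact one_ne_zero⟩
  refine ⟨ax M, ex β0, fun y => ∑ β ∈ G.support, G.coeff β *
    (mmon (fun j => ex β j - ex β0 j) y * ∏ l, φ (mmon (stp l) (ch (ax M) y)) ^ β l),
    ax_ne hM0, det_ax M, ContDiff.sum fun β _ => contDiff_const.mul ((contDiff_mmon _).mul
      (contDiff_prod fun l _ => (hφ.comp (hs l)).pow _)), ?_, fun y => ?_⟩
  · show ∑ β ∈ G.support, G.coeff β * (mmon (fun j => ex β j - ex β0 j) 0 *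
      ∏ l, φ (mmon (stp l) (ch (ax M) 0)) ^ β l) ≠ 0
    rw [Finset.sum_eq_single β0]
    · rw [mmon_zero_eq (fun j => Nat.sub_self _), one_mul]
      refine mul_ne_zero (MvPolynomial.mem_support_iff.1 hβ0) ?_
      refine Finset.prod_ne_zero_iff.2 fun l _ => pow_ne_zero _ ?_
      rw [hs0]
      exact hφ0
    · intro β hβ hne
      rw [mmon_zero_ne ⟨0, Nat.sub_ne_zero_of_lt (hle β hβ hne 0)⟩, zero_mul, mul_zero]
    · exact fun h => absurd hβ0 h
  · rw [MvPolynomial.eval_eq', Finset.mul_sum]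
    refine Finset.sum_congr rfl fun β hβ => ?_
    have h1 : ∏ l, mmon (stp l) (ch (ax M) y) ^ β l = mmon (ex β) y := by
      rw [prod_mmon_pow, mmon_ch]
      congr 1
      funext j
      exact sum_ax M (cum β) j
    have h2 : mmon (ex β) y = mmon (ex β0) y * mmon (fun j => ex β j - ex β0 j) y := by
      rw [← mmon_add]
      congr 1
      funext j
      by_cases hne : β = β0
      · rw [hne, Nat.sub_self, add_zero]
      · have := hle β hβ hne j
        omega
    simp only [mul_pow, Finset.prod_mul_distrib]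
    rw [h1, h2]
    ring

/-- the second factor of a linear form in the chart -/
noncomputable def rho (q : Fin (d + 1) → ℂ) (k : Fin (d + 1)) (t : (Fin d → ℂ) × ℂ) : ℂ :=
  ∑ l, q l * mmon (seg l k) t

theorem lin_eq {q : Fin (d + 1) → ℂ} {k : Fin (d + 1)} (hq : ∀ l, k < l → q l = 0)
    (t : (Fin d → ℂ) × ℂ) : ∑ l, q l * mmon (stp l) t = mmon (stp k) t * rho q k t := by
  unfold rho
  rw [Finset.mul_sum]
  refine Finset.sum_congr rfl fun l _ => ?_
  rcases le_or_gt l k with h | h
  · rw [stp_add h]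
    ring
  · rw [hq l h, zero_mul, zero_mul, mul_zero]

theorem rho_zero {q : Fin (d + 1) → ℂ} {k : Fin (d + 1)} (hq : ∀ l, k < l → q l = 0) :
    rho q k 0 = q k := by
  unfold rho
  rw [Finset.sum_eq_single k]
  · rw [mmon_zero_eq, mul_one]
    intro j
    unfold seg
    rw [if_neg]
    exact fun h => absurd h.2 (not_lt.2 h.1)
  · intro l _ hl
    rcases lt_or_gt_of_ne hl with h | h
    · rw [mmon_zero_ne ⟨l, by unfold seg; rw [if_pos ⟨le_rfl, h⟩]; exact one_ne_zero⟩, mul_zero]
    · rw [hq l h, zero_mul]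
  · exact fun h => absurd (Finset.mem_univ _) h

theorem contDiff_rho (q : Fin (d + 1) → ℂ) (k : Fin (d + 1)) : ContDiff ℂ 2 (rho q k) :=
  ContDiff.sum fun _ _ => contDiff_const.mul (contDiff_mmon _)

end Pool.Agent.K7.H1.TO
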