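import Pool.Agent.TH826.MK.Torus
set_option autoImplicit false

/-!
Arrangements of subtori `x^α = ζ` (`ζ` a root of unity) in the torus of dimension `d + 1`, the
hypersurfaces `λ g ∏_e ∏_i (x^{α_e} - ζ_{e,i}) ^ (w_{e,i} + 1) = x^γ` in the torus, and symbols on
them.
-/

namespace Pool.Agent.K7.H1.TO

open MvPolynomial

open Pool.Agent.TH826.MK (KQ symb Unramified Torus)

/-- The ring of the polynomials in `x_j` (`X (Sum.inl j)`) and `y_j = x_j⁻¹` (`X (Sum.inr j)`),
`j ≤ d`. -/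
abbrev Pol (K : Type*) [Field K] (d : ℕ) : Type _ := MvPolynomial (Fin (d + 1) ⊕ Fin (d + 1)) K

/-- The monomial `x^δ`, `δ ∈ ℤ^(d+1)`. -/
noncomputable def mon {K : Type*} [Field K] {d : ℕ} (δ : Fin (d + 1) → ℤ) : Pol K d :=
  ∏ j, (X (Sum.inl j) ^ (δ j).toNat * X (Sum.inr j) ^ (-δ j).toNat)

/-- The logarithmic derivative `x_j ∂/∂x_j` of Laurent polynomials. -/
noncomputable def dlog {K : Type*} [Field K] {d : ℕ} (j : Fin (d + 1)) (p : Pol K d) : Pol K d :=
  X (Sum.inl j) * pderiv (Sum.inl j) p - X (Sum.inr j) * pderiv (Sum.inr j) p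

/-- The characters `α_e`, `e < m`, the numbers `ζ_{e,0}, ..., ζ_{e,r_e}` and the exponents
`w_{e,i} ≥ 0`, a polynomial `g` and an exponent `γ`. -/
structure Arr (K : Type*) [Field K] (d m : ℕ) where
  /-- the exponents `α_e` -/
  al : Fin m → Fin (d + 1) → ℤ
  /-- the numbers `r_e` -/
  r : Fin m → ℕ
  /-- the numbers `ζ_{e,i}` -/
  z : ∀ e, Fin (r e + 1) → K
  /-- the numbers `w_{e,i}` -/
  w : ∀ e, Fin (r e + 1) → ℕ
  /-- the exponent `γ` -/
  ga : Fin (d + 1) → ℤ
  /-- the polynomial `g` -/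
  g : MvPolynomial (Fin (d + 1)) K

namespace Arr

section ring

variable {K : Type*} [Field K] {d m : ℕ} (F : Arr K d m) (lam : K)

/-- `x^{α_e} - ζ_{e,i}` -/
noncomputable def fac (e : Fin m) (i : Fin (F.r e + 1)) : Pol K d := mon (F.al e) - C (F.z e i)

/-- `λ g x^{-γ} ∏_e ∏_i (x^{α_e} - ζ_{e,i}) ^ (w_{e,i} + 1)` -/
noncomputable def Phi : Pol K d :=
  C lam * (rename Sum.inl F.g * mon (-F.ga)) * ∏ e, ∏ i, F.fac e i ^ (F.w e i + 1)

/-- The ideal generated by `Φ - 1` and `x_j y_j - 1`, `j ≤ d`. -/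
noncomputable def ideal : Ideal (Pol K d) :=
  Ideal.span (insert (F.Phi lam - 1)
    (Set.range fun j : Fin (d + 1) => (X (Sum.inl j) * X (Sum.inr j) - 1 : Pol K d)))

/-- The coordinate ring of the hypersurface `Φ = 1` in the torus. -/
def TRing : Type _ := Pol K d ⧸ F.ideal lam

noncomputable instance : CommRing (F.TRing lam) := Ideal.Quotient.commRing (F.ideal lam)

/-- The polynomials in `x_j`, `x_j⁻¹` as functions on the hypersurface. -/
noncomputable def tpol : Pol K d →+* F.TRing lam := Ideal.Quotient.mk (F.ideal lam)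

/-- The constants. -/
noncomputable def tcst : K →+* F.TRing lam := (F.tpol lam).comp C

theorem tpol_Phi : F.tpol lam (F.Phi lam) = 1 := by
  have h : F.tpol lam (F.Phi lam - 1) = 0 :=
    Ideal.Quotient.eq_zero_iff_mem.2 (Ideal.subset_span (Set.mem_insert _ _))
  rw [map_sub, map_one, sub_eq_zero] at h
  exact h

theorem tpol_X (j : Fin (d + 1)) :
    F.tpol lam (X (Sum.inl j)) * F.tpol lam (X (Sum.inr j)) = 1 := by
  have h : F.tpol lam (X (Sum.inl j) * X (Sum.inr j) - 1) = 0 :=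
    Ideal.Quotient.eq_zero_iff_mem.2 (Ideal.subset_span (Set.mem_insert_of_mem _ ⟨j, rfl⟩))
  rw [map_sub, map_one, map_mul, sub_eq_zero] at h
  exact h

/-- the unit `x_j` -/
noncomputable def tx (j : Fin (d + 1)) : (F.TRing lam)ˣ where
  val := F.tpol lam (X (Sum.inl j))
  inv := F.tpol lam (X (Sum.inr j))
  val_inv := F.tpol_X lam j
  inv_val := by rw [mul_comm]; exact F.tpol_X lam j

theorem coe_mon (δ : Fin (d + 1) → ℤ) :
    F.tpol lam (mon δ) = ((∏ j, F.tx lam j ^ δ j : (F.TRing lam)ˣ) : F.TRing lam) := by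
  unfold mon
  rw [map_prod, Units.coe_prod]
  refine Finset.prod_congr rfl fun j _ => ?_
  rw [map_mul, map_pow, map_pow]
  have h1 : F.tpol lam (X (Sum.inl j)) = (F.tx lam j : F.TRing lam) := rfl
  have h2 : F.tpol lam (X (Sum.inr j)) = ((F.tx lam j)⁻¹ : (F.TRing lam)ˣ) := rfl
  rw [h1, h2, ← Units.val_pow_eq_pow_val, ← Units.val_pow_eq_pow_val, ← Units.val_mul]
  congr 1
  rw [← zpow_natCast, ← zpow_natCast, inv_zpow', ← zpow_add]
  congr 1
  omega

theorem isUnit_fac (e : Fin m) (i : Fin (F.r e + 1)) : IsUnit (F.tpol lam (F.fac e i)) := by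
  refine isUnit_of_dvd_one ?_
  rw [← F.tpol_Phi lam]
  refine map_dvd (F.tpol lam) ?_
  unfold Phi
  refine Dvd.dvd.mul_left ?_ _
  refine (dvd_pow_self _ (Nat.succ_ne_zero (F.w e i))).trans ?_
  refine (Finset.dvd_prod_of_mem (fun i => F.fac e i ^ (F.w e i + 1)) (Finset.mem_univ i)).trans ?_
  exact Finset.dvd_prod_of_mem (fun e => ∏ i, F.fac e i ^ (F.w e i + 1)) (Finset.mem_univ e)

/-- the unit `x^{α_e} - ζ_{e,i}` -/
noncomputable def tf (e : Fin m) (i : Fin (F.r e + 1)) : (F.TRing lam)ˣ :=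
  (F.isUnit_fac lam e i).unit

/-- The entries `(x^α - ζ_{e,k_l+1}) / (x^α - ζ_{e,0})`, `e = T_l`, `α = α_e`, of the symbol of
`T_0, ..., T_d` and `k_0, ..., k_d`. -/
noncomputable def ent (T : Fin (d + 1) → Fin m) (k : ∀ l, Fin (F.r (T l))) (l : Fin (d + 1)) :
    (F.TRing lam)ˣ := F.tf lam (T l) (k l).succ / F.tf lam (T l) 0

/-- The matrix of the characters `T_0, ..., T_d`. -/
def mat (T : Fin (d + 1) → Fin m) : Matrix (Fin (d + 1)) (Fin (d + 1)) ℤ :=
  Matrix.of fun l j => F.al (T l) j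

end ring

section index

variable {K : Type*} [Field K] {d m : ℕ}

/-- `T_0 < ... < T_d`, the characters `α_e`, `e = T_0, ..., T_d`, are linearly independent, and there
is a point `P` of the complex torus with `x^{α_e} = ζ_{e,k_l+1}` for `e = T_l`, `l ≤ d`, such that
every other `e` with `x^{α_e} = ζ_{e,i}` at `P` for some `i` can replace (in the independent
system) some `T_l > e`. -/
def Nbc (σ : K →+* ℂ) (F : Arr K d m) (T : Fin (d + 1) → Fin m)
    (k : ∀ l, Fin (F.r (T l))) : Prop :=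
  StrictMono T ∧ (F.mat T).det ≠ 0 ∧ ∃ P : Fin (d + 1) → ℂ, (∀ j, P j ≠ 0) ∧
    (∀ l, ∏ j, P j ^ F.al (T l) j = σ (F.z (T l) (k l).succ)) ∧
    ∀ e i, (∀ l, T l ≠ e) → ∏ j, P j ^ F.al e j = σ (F.z e i) →
      ∃ l, e < T l ∧ (F.mat (Function.update T l e)).det ≠ 0

/-- The set of the pairs `(T, k)` with `Nbc`. -/
def Ix (σ : K →+* ℂ) (F : Arr K d m) : Type :=
  {s : (T : Fin (d + 1) → Fin m) × (∀ l, Fin (F.r (T l))) // Nbc σ F s.1 s.2}

noncomputable instance (σ : K →+* ℂ) (F : Arr K d m) : Fintype (Ix σ F) :=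
  haveI : Finite (Ix σ F) := by unfold Ix; infer_instance
  Fintype.ofFinite _

noncomputable instance (σ : K →+* ℂ) (F : Arr K d m) : DecidableEq (Ix σ F) :=
  Classical.decEq _

end index

end Arr

end Pool.Agent.K7.H1.TO
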