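import Pool.Agent.K7.H1.AH.Grad
set_option autoImplicit false

/-!
Small tori in the complex varieties `∏_e H_e = η` and the regulators of symbols, whose entries are
quotients of the functions `H_e`.
-/

namespace Pool.Agent.K7.H1.TO

open Filter Topology

open Pool.Agent.TH826.MK

open Pool.Agent.TH826.SX (pairing_close)

open Pool.Agent.TH577.UA (mmon mrow yrow)

variable {d : ℕ} {ι : Type*} [Fintype ι]

theorem engine {H h : ι → (Fin d → ℂ) × ℂ → ℂ} {μ : ι → Fin (d + 1) → ℕ} {r : ℕ} {N : Fin d → ℕ}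
    (hH : ∀ e u, H e u = mmon (μ e) u * h e u) (hc : ∀ e, ContDiff ℂ 2 (h e))
    (h0 : ∀ e, h e 0 ≠ 0) (hμ : ∑ e, μ e 0 = r) (hr : 0 < r)
    (hN : ∀ k : Fin d, ∑ e, μ e k.succ = N k) {P : (Fin d → ℂ) × ℂ → Prop}
    (hP : ∀ᶠ y in 𝓝 (0 : (Fin d → ℂ) × ℂ), P y) {I : Type*} [Fintype I] [Nonempty I]
    (p q : I → Fin (d + 1) → ι) {ε : ℝ} (hε : 0 < ε) :
    ∃ η0 : ℝ, 0 < η0 ∧ ∀ η : ℂ, η ≠ 0 → ‖η‖ < η0 → Real.log ‖η‖ < 0 ∧
      ∃ X : (Fin d → ℝ) → (Fin d → ℂ) × ℂ, ContDiff ℝ 2 X ∧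
        (∀ θ i, X (θ + Pi.single i 1) = X θ) ∧ (∀ θ, ∏ e, H e (X θ) = η) ∧ (∀ θ, P (X θ)) ∧
        (∀ e, Good fun θ => H e (X θ)) ∧
        ∀ i, ∀ G : Fin (d + 1) → (Fin d → ℝ) → ℂ, (∀ l, Good (G l)) →
          (∀ l θ, G l θ * H (q i l) (X θ) = H (p i l) (X θ)) →
          |pairing G / Real.log ‖η‖ - (2 * Real.pi) ^ d *
            (Matrix.of fun l j => mrow r N (μ (p i l)) j - mrow r N (μ (q i l)) j).det| ≤ ε := by
  classical
  choose δ hδ hclose using fun i : I =>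
    pairing_close (Matrix.of fun l j => mrow r N (μ (p i l)) j - mrow r N (μ (q i l)) j) hε
  obtain ⟨i0, -, hi0⟩ := Finset.exists_min_image Finset.univ δ
    ⟨Classical.arbitrary I, Finset.mem_univ _⟩
  set δ0 : ℝ := δ i0 / 3 with hδ0
  have hδ0pos : 0 < δ0 := by
    have := hδ i0
    rw [hδ0]
    linarith
  have hδle : ∀ i, 2 * δ0 < δ i := by
    intro i
    have h1 := hi0 i (Finset.mem_univ i)
    have h2 := hδ i0
    rw [hδ0]
    linarith
  obtain ⟨η0, hη0, hX⟩ := Pool.Agent.K7.H1.AH.exists_points' hH hc h0 hμ hr hN hδ0pos hP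
  refine ⟨η0, hη0, fun η hη hlt => ?_⟩
  obtain ⟨hlog, X, hXc, hXp, hXe, hXP, hXg, hest⟩ := hX η hη hlt
  refine ⟨hlog, X, hXc, hXp, hXe, hXP, hXg, fun i G hG hGe => ?_⟩
  have hmul : ∀ l, (fun θ => G l θ * H (q i l) (X θ)) = fun θ => H (p i l) (X θ) :=
    fun l => funext fun θ => hGe l θ
  refine hclose i G _ hlog.ne hG (fun l θ => ?_) (fun l j θ => ?_)
  · change |Real.log ‖G l θ‖ / Real.log ‖η‖ - (mrow r N (μ (p i l)) 0 -
      mrow r N (μ (q i l)) 0)| < δ i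
    have h1 := (hest (p i l) θ).1
    have h2 := (hest (q i l) θ).1
    have h3 : Real.log ‖G l θ * H (q i l) (X θ)‖ = Real.log ‖H (p i l) (X θ)‖ := by
      rw [hGe]
    rw [norm_mul, Real.log_mul (norm_ne_zero_iff.2 ((hG l).ne_zero θ))
      (norm_ne_zero_iff.2 ((hXg _).ne_zero θ))] at h3
    have h4 : Real.log ‖G l θ‖ = Real.log ‖H (p i l) (X θ)‖ - Real.log ‖H (q i l) (X θ)‖ := by
      linarith
    rw [h4, sub_div]
    refine lt_of_le_of_lt ?_ (hδle i)
    have h5 := abs_le.1 h1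
    have h6 := abs_le.1 h2
    rw [abs_le]
    constructor <;> linarith [h5.1, h5.2, h6.1, h6.2]
  · change ‖lw (G l) j θ - 2 * Real.pi * Complex.I *
        ((mrow r N (μ (p i l)) j.succ - mrow r N (μ (q i l)) j.succ : ℝ) : ℂ)‖ < δ i
    have h1 := (hest (p i l) θ).2 j
    have h2 := (hest (q i l) θ).2 j
    have h3 := lw_mul (hG l) (hXg (q i l)) j θ
    rw [hmul l] at h3
    have h4 : lw (G l) j θ =
        lw (fun θ => H (p i l) (X θ)) j θ - lw (fun θ => H (q i l) (X θ)) j θ := by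
      rw [h3]
      ring
    rw [h4]
    refine lt_of_le_of_lt ?_ (hδle i)
    have e2 : lw (fun θ => H (p i l) (X θ)) j θ - lw (fun θ => H (q i l) (X θ)) j θ -
        2 * Real.pi * Complex.I *
          ((mrow r N (μ (p i l)) j.succ - mrow r N (μ (q i l)) j.succ : ℝ) : ℂ) =
        (lw (fun θ => H (p i l) (X θ)) j θ -
          2 * Real.pi * Complex.I * mrow r N (μ (p i l)) j.succ) -
        (lw (fun θ => H (q i l) (X θ)) j θ -
          2 * Real.pi * Complex.I * mrow r N (μ (q i l)) j.succ) := by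
      push_cast
      ring
    rw [e2]
    refine (norm_sub_le _ _).trans ?_
    linarith

theorem lead_gen (A : Fin (d + 1) → Fin (d + 1) → ℕ) (r : ℕ) (N : Fin d → ℕ)
    (m1 m2 : Fin (d + 1) → Fin (d + 1) → ℕ) :
    (Matrix.of fun l j => mrow r N (fun j => ∑ i, m1 l i * A i j) j -
      mrow r N (fun j => ∑ i, m2 l i * A i j) j).det =
      (Matrix.of fun l j => (m1 l j : ℝ) - m2 l j).det *
        ((Matrix.of fun i j => (A i j : ℝ)).det * (Matrix.of (yrow r N)).det) := by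
  have h : (Matrix.of fun l j => mrow r N (fun j => ∑ i, m1 l i * A i j) j -
      mrow r N (fun j => ∑ i, m2 l i * A i j) j) =
      (Matrix.of fun l j => (m1 l j : ℝ) - m2 l j) *
        ((Matrix.of fun i j => (A i j : ℝ)) * Matrix.of (yrow r N)) := by
    rw [← Matrix.mul_assoc]
    ext l j
    rw [Matrix.mul_apply]
    simp only [Matrix.of_apply]
    unfold mrow
    rw [← Finset.sum_sub_distrib]
    refine Finset.sum_congr rfl fun i _ => ?_
    rw [← sub_mul, Matrix.mul_apply]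
    congr 1
    simp only [Matrix.of_apply]
    push_cast
    rw [← Finset.sum_sub_distrib]
    exact Finset.sum_congr rfl fun k _ => by ring
  rw [h, Matrix.det_mul, Matrix.det_mul]

end Pool.Agent.K7.H1.TO
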