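import Pool.Agent.K7.H1.TO.Pull
set_option autoImplicit false

/-!
Complex points and tori of the hypersurfaces, and the gradient.
-/

namespace Pool.Agent.K7.H1.TO

open MvPolynomial

open Pool.Agent.TH826.MK (Torus)

open Pool.Agent.TH577.UA (mmon)

open Pool.Agent.K7.H1.AH (mmon_smul)

/-- the values of the variables `x_j`, `x_j⁻¹` -/
noncomputable def vals {n : ℕ} (x : Fin n → ℂ) : Fin n ⊕ Fin n → ℂ := Sum.elim x fun j => (x j)⁻¹

theorem eval_mon {K : Type*} [Field K] {d : ℕ} (σ : K →+* ℂ) {x : Fin (d + 1) → ℂ}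
    (hx : ∀ j, x j ≠ 0) (δ : Fin (d + 1) → ℤ) :
    eval₂ σ (vals x) (mon δ : Pol K d) = ∏ j, x j ^ δ j := by
  unfold mon
  rw [← coe_eval₂Hom, map_prod]
  refine Finset.prod_congr rfl fun j _ => ?_
  rw [map_mul, map_pow, map_pow, coe_eval₂Hom, eval₂_X, eval₂_X]
  show x j ^ (δ j).toNat * (x j)⁻¹ ^ (-δ j).toNat = _
  rw [← zpow_natCast, ← zpow_natCast, inv_zpow', ← zpow_add₀ (hx j)]
  congr 1
  omega

namespace Arr

variable {K : Type*} [Field K] {d m n : ℕ} {F : Arr K d m} {σ : K →+* ℂ} {lam : K}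

theorem eval_fac {x : Fin (d + 1) → ℂ} (hx : ∀ j, x j ≠ 0) (e : Fin m) (i : Fin (F.r e + 1)) :
    eval₂ σ (vals x) (F.fac e i) = ∏ j, x j ^ F.al e j - σ (F.z e i) := by
  unfold fac
  rw [eval₂_sub, eval_mon σ hx, eval₂_C]

theorem eval_Phi {x : Fin (d + 1) → ℂ} (hx : ∀ j, x j ≠ 0) :
    eval₂ σ (vals x) (F.Phi lam) = σ lam * (eval₂ σ x F.g * ∏ j, x j ^ (-F.ga) j) *
      ∏ e, ∏ i, (∏ j, x j ^ F.al e j - σ (F.z e i)) ^ (F.w e i + 1) := by
  unfold Phi
  rw [eval₂_mul, eval₂_mul, eval₂_mul, eval₂_C, eval_mon σ hx, eval₂_rename, eval₂_prod]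
  simp only [eval₂_prod, eval₂_pow, eval_fac hx]
  rfl

/-- the complex points -/
def PtT (σ : K →+* ℂ) (F : Arr K d m) (lam : K) (x : Fin (d + 1) → ℂ) : Prop :=
  (∀ j, x j ≠ 0) ∧ eval₂ σ (vals x) (F.Phi lam) = 1

/-- evaluation at a point -/
noncomputable def evT {x : Fin (d + 1) → ℂ} (hx : PtT σ F lam x) : F.TRing lam →+* ℂ :=
  Ideal.Quotient.lift (F.ideal lam) (eval₂Hom σ (vals x)) (by
    intro p hp
    have hle : F.ideal lam ≤ RingHom.ker (eval₂Hom σ (vals x)) := by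
      unfold ideal
      rw [Ideal.span_le]
      rintro q (rfl | ⟨j, rfl⟩)
      · show eval₂ σ (vals x) (F.Phi lam - 1) = 0
        rw [eval₂_sub, hx.2, eval₂_one, sub_self]
      · show eval₂ σ (vals x) (X (Sum.inl j) * X (Sum.inr j) - 1) = 0
        rw [eval₂_sub, eval₂_mul, eval₂_X, eval₂_X, eval₂_one]
        show x j * (x j)⁻¹ - 1 = 0
        rw [mul_inv_cancel₀ (hx.1 j), sub_self]
    exact hle hp)

theorem evT_tpol {x : Fin (d + 1) → ℂ} (hx : PtT σ F lam x) (p : Pol K d) :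
    evT hx (F.tpol lam p) = eval₂ σ (vals x) p := Ideal.Quotient.lift_mk _ _ _

theorem evT_tcst {x : Fin (d + 1) → ℂ} (hx : PtT σ F lam x) (y : K) :
    evT hx (F.tcst lam y) = σ y := by
  show evT hx (F.tpol lam (C y)) = _
  rw [evT_tpol, eval₂_C]

theorem evT_tf {x : Fin (d + 1) → ℂ} (hx : PtT σ F lam x) (e : Fin m) (i : Fin (F.r e + 1)) :
    evT hx (F.tf lam e i : F.TRing lam) = ∏ j, x j ^ F.al e j - σ (F.z e i) := by
  show evT hx (F.tpol lam (F.fac e i)) = _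
  rw [evT_tpol, eval_fac hx.1]

theorem evT_congr {x y : Fin (d + 1) → ℂ} (hx : PtT σ F lam x) (hy : PtT σ F lam y)
    (h : x = y) : evT hx = evT hy := by
  subst h
  rfl

theorem contDiff_evT {x : (Fin n → ℝ) → (Fin (d + 1) → ℂ)} (hc : ContDiff ℝ 2 x)
    (hx : ∀ θ, PtT σ F lam (x θ)) (h : F.TRing lam) : ContDiff ℝ 2 fun θ => evT (hx θ) h := by
  have hxk : ∀ k, ContDiff ℝ 2 fun θ => vals (x θ) k := by
    rintro (k | k)
    · exact contDiff_pi.1 hc k
    · exact (contDiff_pi.1 hc k).inv fun θ => (hx θ).1 k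
  obtain ⟨p, hp⟩ := Ideal.Quotient.mk_surjective h
  have hmv : ∀ p : Pol K d, ContDiff ℝ 2 fun θ => eval₂ σ (vals (x θ)) p := by
    intro p
    induction p using MvPolynomial.induction_on with
    | C c => simpa using contDiff_const
    | add p q hp hq => simpa using hp.add hq
    | mul_X p k hp => simpa using hp.mul (hxk k)
  have e : (fun θ => evT (hx θ) h) = fun θ => eval₂ σ (vals (x θ)) p := by
    funext θ
    rw [← hp]
    exact evT_tpol (hx θ) p
  rw [e]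
  exact hmv p

/-- a torus in the hypersurface -/
noncomputable def mkT (x : (Fin n → ℝ) → (Fin (d + 1) → ℂ)) (hc : ContDiff ℝ 2 x)
    (hp : ∀ θ i, x (θ + Pi.single i 1) = x θ)
    (hx : ∀ θ, PtT σ F lam (x θ)) : Torus (F.TRing lam) n where
  e θ := evT (hx θ)
  smooth h := contDiff_evT hc hx h
  periodic θ i := evT_congr _ _ (hp θ i)

end Arr

section grad

variable {K : Type*} [Field K] {d n : ℕ} {σ : K →+* ℂ}

theorem hasDerivAt_eval₂' {ι : Type*} [Fintype ι] {x : ℂ → ι → ℂ} {x' : ι → ℂ} {τ : ℂ}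
    (hx : ∀ j, HasDerivAt (fun τ => x τ j) (x' j) τ) (p : MvPolynomial ι K) :
    HasDerivAt (fun τ => eval₂ σ (x τ) p) (∑ j, eval₂ σ (x τ) (pderiv j p) * x' j) τ := by
  classical
  induction p using MvPolynomial.induction_on with
  | C c =>
    simp only [eval₂_C, pderiv_C, eval₂_zero, zero_mul, Finset.sum_const_zero]
    exact hasDerivAt_const _ _
  | add p q hp hq =>
    simp only [eval₂_add, map_add, add_mul, Finset.sum_add_distrib]
    exact hp.add hq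
  | mul_X p k hp =>
    simp only [eval₂_mul, eval₂_X, pderiv_mul, eval₂_add, add_mul, Finset.sum_add_distrib]
    have h1 := hp.mul (hx k)
    refine h1.congr_deriv ?_
    congr 1
    · rw [Finset.sum_mul]
      exact Finset.sum_congr rfl fun j _ => by ring
    · rw [Finset.sum_eq_single k]
      · rw [pderiv_X_self, eval₂_one, mul_one]
      · intro j _ hj
        rw [pderiv_X_of_ne hj.symm, eval₂_zero, mul_zero, zero_mul]
      · exact fun h => absurd (Finset.mem_univ k) h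

theorem grad_ne' {Q : Pol K d} {ν : Fin (d + 1) → ℕ}
    {Hu : (Fin d → ℂ) × ℂ → ℂ} {xc : (Fin d → ℂ) × ℂ → Fin (d + 1) → ℂ}
    (hxc : ContDiff ℂ 2 xc) (hx0 : ∀ y j, xc y j ≠ 0)
    (hQ : ∀ y, eval₂ σ (vals (xc y)) Q = mmon ν y * Hu y)
    (hHc : ContDiff ℂ 2 Hu) (hν : 0 < ∑ i, ν i) {y : (Fin d → ℂ) × ℂ}
    (hy : ‖fderiv ℂ Hu y y‖ < ‖Hu y‖) (h0 : eval₂ σ (vals (xc y)) Q ≠ 0) :
    ∃ j, eval₂ σ (vals (xc y)) (dlog j Q) ≠ 0 := by
  by_contra hcon
  push Not at hcon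
  have hs : HasDerivAt (fun τ : ℂ => τ • y) y 1 := by
    have h1 := (hasDerivAt_id (1 : ℂ)).smul_const y
    simpa using h1
  have h1y : (1 : ℂ) • y = y := one_smul _ _
  have hxd0 : ∀ j, HasDerivAt (fun τ : ℂ => xc (τ • y) j)
      (fderiv ℂ (fun z => xc z j) y y) 1 := by
    intro j
    have hj : ContDiff ℂ 2 fun z => xc z j := contDiff_pi.1 hxc j
    have h2 : HasFDerivAt (fun z => xc z j) (fderiv ℂ (fun z => xc z j) y) ((1 : ℂ) • y) := by
      rw [h1y]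
      exact ((hj.differentiable (by norm_num)) y).hasFDerivAt
    exact h2.comp_hasDerivAt (1 : ℂ) hs
  set x' : Fin (d + 1) → ℂ := fun j => fderiv ℂ (fun z => xc z j) y y with hx'
  have hxd : ∀ j : Fin (d + 1) ⊕ Fin (d + 1), HasDerivAt (fun τ : ℂ => vals (xc (τ • y)) j)
      ((Sum.elim x' fun j => -x' j / xc y j ^ 2 : Fin (d + 1) ⊕ Fin (d + 1) → ℂ) j) 1 := by
    rintro (j | j)
    · exact hxd0 j
    · have h2 := (hxd0 j).inv (hx0 ((1 : ℂ) • y) j)
      rw [h1y] at h2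
      exact h2
  have hA := hasDerivAt_eval₂' (σ := σ) hxd Q
  rw [h1y, Fintype.sum_sum_type] at hA
  simp only [Sum.elim_inl, Sum.elim_inr] at hA
  have hz : ∑ j, eval₂ σ (vals (xc y)) (pderiv (Sum.inl j) Q) * x' j +
      ∑ j, eval₂ σ (vals (xc y)) (pderiv (Sum.inr j) Q) * (-x' j / xc y j ^ 2) = 0 := by
    rw [← Finset.sum_add_distrib]
    refine Finset.sum_eq_zero fun j _ => ?_
    have h3 := hcon j
    unfold dlog at h3
    rw [eval₂_sub, eval₂_mul, eval₂_mul, eval₂_X, eval₂_X] at h3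
    change xc y j * _ - (xc y j)⁻¹ * _ = 0 at h3
    have h4 := hx0 y j
    field_simp at h3 ⊢
    linear_combination x' j * h3
  rw [hz] at hA
  have hHd : HasDerivAt (fun τ : ℂ => Hu (τ • y)) (fderiv ℂ Hu y y) 1 := by
    have h2 : HasFDerivAt Hu (fderiv ℂ Hu y) ((1 : ℂ) • y) := by
      rw [h1y]
      exact ((hHc.differentiable (by norm_num)) y).hasFDerivAt
    exact h2.comp_hasDerivAt (1 : ℂ) hs
  have hB := ((hasDerivAt_pow (∑ i, ν i) (1 : ℂ)).mul_const (mmon ν y)).mul hHd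
  have hfun : (fun τ : ℂ => eval₂ σ (vals (xc (τ • y))) Q) =
      fun τ => τ ^ (∑ i, ν i) * mmon ν y * Hu (τ • y) := by
    funext τ
    rw [hQ, mmon_smul]
  rw [hfun] at hA
  have hu := hA.unique hB
  rw [h1y, one_pow, one_pow, one_mul, mul_one] at hu
  rw [hQ] at h0
  have hm : mmon ν y ≠ 0 := left_ne_zero_of_mul h0
  have h3 : ((∑ i, ν i : ℕ) : ℂ) * Hu y = -fderiv ℂ Hu y y := by
    have h4 : mmon ν y * (((∑ i, ν i : ℕ) : ℂ) * Hu y + fderiv ℂ Hu y y) = 0 := by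
      linear_combination -hu
    have h5 := (mul_eq_zero.1 h4).resolve_left hm
    linear_combination h5
  have h6 : ‖((∑ i, ν i : ℕ) : ℂ) * Hu y‖ = ‖fderiv ℂ Hu y y‖ := by rw [h3, norm_neg]
  rw [norm_mul, Complex.norm_natCast] at h6
  have h7 : (1 : ℝ) ≤ ((∑ i, ν i : ℕ) : ℝ) := by exact_mod_cast hν
  have h8 : ‖Hu y‖ ≤ ((∑ i, ν i : ℕ) : ℝ) * ‖Hu y‖ := le_mul_of_one_le_left (norm_nonneg _) h7
  linarith

end grad

end Pool.Agent.K7.H1.TO
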