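import Pool.Agent.K7.H1.TO.Chart
import Pool.Agent.K7.H1.TO.Def
set_option autoImplicit false

/-!
Coordinates of the torus near a vertex of the arrangement.
-/

namespace Pool.Agent.K7.H1.TO

open MvPolynomial

open Pool.Agent.TH577.UA (mmon mmon_add mmon_zero_ne mmon_zero_eq contDiff_mmon stp)

open Pool.Agent.K7.H1.AH (ch mmon_ch ch_zero contDiff_ch)

namespace Arr

variable {K : Type*} [Field K] {d m : ℕ} (F : Arr K d m) (T : Fin (d + 1) → Fin m)

/-- the matrix of the characters `T`, over `ℂ` -/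
noncomputable def mc : Matrix (Fin (d + 1)) (Fin (d + 1)) ℂ := (Int.castRingHom ℂ).mapMatrix (F.mat T)

/-- the coordinates of a character with respect to the characters `T` -/
noncomputable def qv (δ : Fin (d + 1) → ℤ) (l : Fin (d + 1)) : ℂ := ∑ j, (δ j : ℂ) * (F.mc T)⁻¹ j l

/-- coordinates of the torus near `P` -/
noncomputable def xs (P s : Fin (d + 1) → ℂ) (j : Fin (d + 1)) : ℂ :=
  P j * Complex.exp (∑ l, (F.mc T)⁻¹ j l * s l)

variable {F T}

theorem det_mc : (F.mc T).det = ((F.mat T).det : ℂ) := by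
  unfold mc
  rw [← RingHom.map_det]
  rfl

theorem isUnit_mc (hT : (F.mat T).det ≠ 0) : IsUnit (F.mc T).det := by
  rw [det_mc]
  exact isUnit_iff_ne_zero.2 (by exact_mod_cast hT)

theorem sum_qv (hT : (F.mat T).det ≠ 0) (δ : Fin (d + 1) → ℤ) (j : Fin (d + 1)) :
    (δ j : ℂ) = ∑ l, qv F T δ l * F.mc T l j := by
  unfold qv
  simp only [Finset.sum_mul]
  rw [Finset.sum_comm]
  have h3 : ∀ p, ∑ l, (δ p : ℂ) * (F.mc T)⁻¹ p l * F.mc T l j =
      (δ p : ℂ) * (if p = j then 1 else 0) := by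
    intro p
    simp only [mul_assoc, ← Finset.mul_sum]
    have h := congrFun (congrFun (Matrix.nonsing_inv_mul (F.mc T) (isUnit_mc hT)) p) j
    rw [Matrix.mul_apply, Matrix.one_apply] at h
    rw [h]
  simp only [h3]
  simp

theorem qv_T (hT : (F.mat T).det ≠ 0) (i l : Fin (d + 1)) :
    qv F T (F.al (T i)) l = if i = l then 1 else 0 := by
  have h := congrFun (congrFun (Matrix.mul_nonsing_inv (F.mc T) (isUnit_mc hT)) i) l
  rw [Matrix.mul_apply, Matrix.one_apply] at h
  rw [← h]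
  rfl

theorem det_update (hT : (F.mat T).det ≠ 0) (l : Fin (d + 1)) (e : Fin m) :
    ((F.mat (Function.update T l e)).det : ℂ) = qv F T (F.al e) l * ((F.mat T).det : ℂ) := by
  rw [← det_mc, ← det_mc]
  have h1 : F.mc (Function.update T l e) =
      (F.mc T).updateRow l (∑ k, qv F T (F.al e) k • (F.mc T) k) := by
    have h2 : ∑ k, qv F T (F.al e) k • (F.mc T) k = fun j => (F.al e j : ℂ) := by
      funext j
      rw [Finset.sum_apply, sum_qv hT (F.al e) j]
      rfl
    rw [h2]
    ext p j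
    by_cases hp : p = l
    · subst hp
      rw [Matrix.updateRow_self]
      show ((F.al (Function.update T p e p) j : ℤ) : ℂ) = _
      rw [Function.update_self]
    · rw [Matrix.updateRow_ne hp]
      show ((F.al (Function.update T l e p) j : ℤ) : ℂ) = _
      rw [Function.update_of_ne hp]
      rfl
  rw [h1, Matrix.det_updateRow_sum, smul_eq_mul]

theorem exists_qv (hT : (F.mat T).det ≠ 0) {δ : Fin (d + 1) → ℤ} (hδ : δ ≠ 0) :
    ∃ l, qv F T δ l ≠ 0 := by
  by_contra h
  push Not at h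
  refine hδ (funext fun j => ?_)
  have h1 := sum_qv hT δ j
  simp only [h, zero_mul, Finset.sum_const_zero] at h1
  exact_mod_cast h1

section top

open Classical in
/-- the largest index of a character of `T` which occurs in the character `e` -/
noncomputable def top (F : Arr K d m) (T : Fin (d + 1) → Fin m) (e : Fin m) : Fin (d + 1) :=
  (Finset.univ.filter fun l => qv F T (F.al e) l ≠ 0).sup id

theorem le_top {e : Fin m} {l : Fin (d + 1)} (h : qv F T (F.al e) l ≠ 0) : l ≤ top F T e := by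
  classical
  unfold top
  exact Finset.le_sup (f := id) (Finset.mem_filter.2 ⟨Finset.mem_univ _, h⟩)

theorem qv_top {e : Fin m} (h : ∃ l, qv F T (F.al e) l ≠ 0) :
    qv F T (F.al e) (top F T e) ≠ 0 := by
  classical
  obtain ⟨i, hi⟩ := h
  have hne : (Finset.univ.filter fun l => qv F T (F.al e) l ≠ 0).Nonempty :=
    ⟨i, Finset.mem_filter.2 ⟨Finset.mem_univ _, hi⟩⟩
  obtain ⟨j, hj, h⟩ := Finset.exists_mem_eq_sup _ hne (id : Fin (d + 1) → Fin (d + 1))
  have h2 : top F T e = j := by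
    unfold top
    rw [← show id j = j from rfl, ← h]
  rw [h2]
  exact (Finset.mem_filter.1 hj).2

theorem top_T (hT : (F.mat T).det ≠ 0) (i : Fin (d + 1)) : top F T (T i) = i := by
  have h1 : qv F T (F.al (T i)) i ≠ 0 := by
    rw [qv_T hT, if_pos rfl]
    exact one_ne_zero
  have h2 := qv_top ⟨i, h1⟩
  rw [qv_T hT] at h2
  by_contra hne
  rw [if_neg (Ne.symm hne)] at h2
  exact h2 rfl

end top

variable {P : Fin (d + 1) → ℂ}

theorem xs_ne (hP : ∀ j, P j ≠ 0) (s : Fin (d + 1) → ℂ) (j : Fin (d + 1)) :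
    xs F T P s j ≠ 0 := mul_ne_zero (hP j) (Complex.exp_ne_zero _)

theorem prod_exp_zpow (δ : Fin (d + 1) → ℤ) (s : Fin (d + 1) → ℂ) :
    ∏ j, Complex.exp (∑ l, (F.mc T)⁻¹ j l * s l) ^ δ j =
      Complex.exp (∑ l, qv F T δ l * s l) := by
  simp only [← Complex.exp_int_mul]
  rw [← Complex.exp_sum]
  congr 1
  unfold qv
  simp only [Finset.mul_sum, Finset.sum_mul]
  rw [Finset.sum_comm]
  refine Finset.sum_congr rfl fun l _ => Finset.sum_congr rfl fun j _ => ?_
  ring

theorem prod_xs (δ : Fin (d + 1) → ℤ) (s : Fin (d + 1) → ℂ) :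
    ∏ j, xs F T P s j ^ δ j = (∏ j, P j ^ δ j) * Complex.exp (∑ l, qv F T δ l * s l) := by
  unfold xs
  simp only [mul_zpow, Finset.prod_mul_distrib]
  rw [prod_exp_zpow]

theorem exists_xs (hT : (F.mat T).det ≠ 0) (hP : ∀ j, P j ≠ 0) {x : Fin (d + 1) → ℂ}
    (hx : ∀ j, x j ≠ 0) : ∃ s, xs F T P s = x := by
  refine ⟨fun l => ∑ j, F.mc T l j * Complex.log (x j / P j), funext fun j => ?_⟩
  unfold xs
  have h1 : ∑ l, (F.mc T)⁻¹ j l * ∑ i, F.mc T l i * Complex.log (x i / P i) =
      Complex.log (x j / P j) := by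
    simp only [Finset.mul_sum]
    rw [Finset.sum_comm]
    have h3 : ∀ i, ∑ l, (F.mc T)⁻¹ j l * (F.mc T l i * Complex.log (x i / P i)) =
        (if j = i then 1 else 0) * Complex.log (x i / P i) := by
      intro i
      have h := congrFun (congrFun (Matrix.nonsing_inv_mul (F.mc T) (isUnit_mc hT)) j) i
      rw [Matrix.mul_apply, Matrix.one_apply] at h
      rw [← h, Finset.sum_mul]
      exact Finset.sum_congr rfl fun l _ => by ring
    simp only [h3]
    simp
  rw [h1, Complex.exp_log (div_ne_zero (hx j) (hP j)), mul_div_cancel₀ _ (hP j)]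

section gpol

variable (F T)

/-- the exponents of the monomials, times the determinant -/
def exz (k : Fin (d + 1) → ℤ) (l : Fin (d + 1)) : ℤ := ∑ j, k j * (F.mat T).adjugate j l

/-- a bound of the exponents -/
def exb : ℕ := ∑ k ∈ F.g.support, ∑ l, (exz F T (fun j => (k j : ℤ)) l).natAbs

variable {F T}

theorem qv_eq (δ : Fin (d + 1) → ℤ) (l : Fin (d + 1)) :
    qv F T δ l = (exz F T δ l : ℂ) / ((F.mat T).det : ℂ) := by
  unfold qv exz
  rw [Int.cast_sum, Finset.sum_div]
  refine Finset.sum_congr rfl fun j _ => ?_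
  rw [Matrix.inv_def, Matrix.smul_apply, smul_eq_mul, Ring.inverse_eq_inv', det_mc]
  have h1 : (F.mc T).adjugate j l = (((F.mat T).adjugate j l : ℤ) : ℂ) := by
    unfold mc
    rw [← RingHom.map_adjugate]
    rfl
  rw [h1]
  push_cast
  ring

theorem exb_le {k : Fin (d + 1) →₀ ℕ} (hk : k ∈ F.g.support) (l : Fin (d + 1)) :
    0 ≤ exz F T (fun j => (k j : ℤ)) l + exb F T := by
  have h1 : (exz F T (fun j => (k j : ℤ)) l).natAbs ≤ exb F T := by
    unfold exb
    refine le_trans ?_ (Finset.single_le_sum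
      (f := fun k : Fin (d + 1) →₀ ℕ => ∑ l, (exz F T (fun j => (k j : ℤ)) l).natAbs)
      (fun _ _ => Nat.zero_le _) hk)
    exact Finset.single_le_sum (f := fun l => (exz F T (fun j => (k j : ℤ)) l).natAbs)
      (fun _ _ => Nat.zero_le _) (Finset.mem_univ l)
  omega

variable (F T) in
/-- the polynomial `g` in the coordinates `exp (s_l / det) - 1` -/
noncomputable def gpol (σ : K →+* ℂ) (P : Fin (d + 1) → ℂ) : MvPolynomial (Fin (d + 1)) ℂ :=
  ∑ k ∈ F.g.support, C (σ (F.g.coeff k) * ∏ j, P j ^ k j) *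
    ∏ l, (1 + X l) ^ (exz F T (fun j => (k j : ℤ)) l + exb F T).toNat

theorem eval_gpol (σ : K →+* ℂ) (s : Fin (d + 1) → ℂ) :
    eval (fun l => Complex.exp (s l / ((F.mat T).det : ℂ)) - 1) (gpol F T σ P) =
      (∏ l, Complex.exp (s l / ((F.mat T).det : ℂ)) ^ exb F T) *
        eval₂ σ (xs F T P s) F.g := by
  unfold gpol
  rw [eval₂_eq', map_sum, Finset.mul_sum]
  refine Finset.sum_congr rfl fun k hk => ?_
  rw [map_mul, eval_C, map_prod]
  simp only [map_pow, map_add, map_one, eval_X, add_sub_cancel]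
  have h1 : ∏ j, xs F T P s j ^ k j = (∏ j, P j ^ k j) *
      ∏ l, Complex.exp (s l / ((F.mat T).det : ℂ)) ^ exz F T (fun j => (k j : ℤ)) l := by
    have h2 := prod_xs (F := F) (T := T) (P := P) (fun j => (k j : ℤ)) s
    simp only [zpow_natCast] at h2
    rw [h2]
    congr 1
    simp only [← Complex.exp_int_mul]
    rw [← Complex.exp_sum]
    congr 1
    refine Finset.sum_congr rfl fun l _ => ?_
    rw [qv_eq]
    ring
  rw [h1]
  have h3 : ∏ l, Complex.exp (s l / ((F.mat T).det : ℂ)) ^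
      (exz F T (fun j => (k j : ℤ)) l + exb F T).toNat =
      (∏ l, Complex.exp (s l / ((F.mat T).det : ℂ)) ^ exb F T) *
      ∏ l, Complex.exp (s l / ((F.mat T).det : ℂ)) ^ exz F T (fun j => (k j : ℤ)) l := by
    rw [← Finset.prod_mul_distrib]
    refine Finset.prod_congr rfl fun l _ => ?_
    rw [← zpow_natCast, Int.toNat_of_nonneg (exb_le hk l), zpow_add₀ (Complex.exp_ne_zero _),
      zpow_natCast, mul_comm]
  rw [h3]
  ring

theorem gpol_ne_zero (σ : K →+* ℂ) (hT : (F.mat T).det ≠ 0) (hP : ∀ j, P j ≠ 0)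
    (hg : F.g ≠ 0) : gpol F T σ P ≠ 0 := by
  intro h
  have hQ : map σ F.g * ∏ j, X j = 0 := by
    apply MvPolynomial.funext
    intro x
    rw [map_mul, map_prod, map_zero]
    simp only [eval_X]
    by_cases hx : ∃ j, x j = 0
    · obtain ⟨j, hj⟩ := hx
      rw [Finset.prod_eq_zero (Finset.mem_univ j) hj, mul_zero]
    · push Not at hx
      obtain ⟨s, hs⟩ := exists_xs (F := F) (T := T) hT hP hx
      have h1 := eval_gpol (F := F) (T := T) (P := P) σ s
      rw [h, map_zero, hs] at h1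
      rcases mul_eq_zero.1 h1.symm with h2 | h2
      · exact absurd h2 (Finset.prod_ne_zero_iff.2 fun l _ =>
          pow_ne_zero _ (Complex.exp_ne_zero _))
      · rw [eval_map, h2, zero_mul]
  rcases mul_eq_zero.1 hQ with h1 | h1
  · exact hg (map_injective σ σ.injective (h1.trans (map_zero (map σ)).symm))
  · obtain ⟨j, -, hj⟩ := Finset.prod_eq_zero_iff.1 h1
    exact X_ne_zero j hj

end gpol

/-- the values of the coordinates in the chart -/
noncomputable def sv (A : Fin (d + 1) → Fin (d + 1) → ℕ) (y : (Fin d → ℂ) × ℂ)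
    (l : Fin (d + 1)) : ℂ := mmon (stp l) (ch A y)

theorem contDiff_sv (A : Fin (d + 1) → Fin (d + 1) → ℕ) (l : Fin (d + 1)) :
    ContDiff ℂ 2 fun y : (Fin d → ℂ) × ℂ => sv A y l :=
  (contDiff_mmon (stp l)).comp contDiff_ch

theorem sv_zero {A : Fin (d + 1) → Fin (d + 1) → ℕ} (hA : ∀ i j, A i j ≠ 0)
    (l : Fin (d + 1)) : sv A (0 : (Fin d → ℂ) × ℂ) l = 0 := by
  unfold sv
  rw [ch_zero hA]
  exact mmon_zero_ne ⟨l, by unfold stp; rw [if_pos le_rfl]; exact one_ne_zero⟩

variable (F T) in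
theorem contDiff_xs (P : Fin (d + 1) → ℂ) (A : Fin (d + 1) → Fin (d + 1) → ℕ) :
    ContDiff ℂ 2 fun y : (Fin d → ℂ) × ℂ => xs F T P (sv A y) := by
  refine contDiff_pi.2 fun j => ?_
  unfold xs
  exact contDiff_const.mul (Complex.contDiff_exp.comp
    (ContDiff.sum fun l _ => contDiff_const.mul (contDiff_sv A l)))

theorem exists_gchart (σ : K →+* ℂ) (hT : (F.mat T).det ≠ 0) (hP : ∀ j, P j ≠ 0)
    (hg : F.g ≠ 0) :
    ∃ (A : Fin (d + 1) → Fin (d + 1) → ℕ) (β : Fin (d + 1) → ℕ) (H : (Fin d → ℂ) × ℂ → ℂ),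
      (∀ i j, A i j ≠ 0) ∧ (Matrix.of fun i j => (A i j : ℝ)).det ≠ 0 ∧ ContDiff ℂ 2 H ∧
      H 0 ≠ 0 ∧ ∀ y, eval₂ σ (xs F T P (sv A y)) F.g * ∏ j, xs F T P (sv A y) j ^ (-F.ga) j =
        mmon β y * H y := by
  set D : ℂ := ((F.mat T).det : ℂ) with hDdef
  have hD : D ≠ 0 := by
    rw [hDdef]
    exact_mod_cast hT
  set φ : ℂ → ℂ := fun z => E (z / D) / D with hφ
  have hφc : ContDiff ℂ 2 φ := (contDiff_E.comp (contDiff_id.div_const D)).div_const D
  have hφ0 : φ 0 ≠ 0 := by
    simp only [hφ, zero_div, E_zero]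
    exact div_ne_zero one_ne_zero hD
  obtain ⟨A, β, H, hA, hdet, hH, hH0, hHe⟩ := exists_chart2 (gpol_ne_zero σ hT hP hg) hφc hφ0
  refine ⟨A, β, fun y => H y * ((∏ l, Complex.exp (-(exb F T : ℂ) * (sv A y l / D))) *
    ((∏ j, P j ^ (-F.ga) j) * Complex.exp (∑ l, qv F T (-F.ga) l * sv A y l))), hA, hdet,
    hH.mul ((contDiff_prod fun l _ => Complex.contDiff_exp.comp (contDiff_const.mul
      ((contDiff_sv A l).div_const D))).mul (contDiff_const.mul (Complex.contDiff_exp.comp
      (ContDiff.sum fun l _ => contDiff_const.mul (contDiff_sv A l))))), ?_, fun y => ?_⟩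
  · refine mul_ne_zero hH0 (mul_ne_zero (Finset.prod_ne_zero_iff.2 fun l _ =>
      Complex.exp_ne_zero _) (mul_ne_zero (Finset.prod_ne_zero_iff.2 fun j _ =>
      zpow_ne_zero _ (hP j)) (Complex.exp_ne_zero _)))
  · have h1 := eval_gpol (F := F) (T := T) (P := P) σ (sv A y)
    have h2 : (fun l => Complex.exp (sv A y l / ((F.mat T).det : ℂ)) - 1) =
        fun l => mmon (stp l) (ch A y) * φ (mmon (stp l) (ch A y)) := by
      funext l
      rw [exp_sub_one]
      show sv A y l / D * E (sv A y l / D) = sv A y l * (E (sv A y l / D) / D)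
      ring
    rw [h2, hHe] at h1
    have h3 : eval₂ σ (xs F T P (sv A y)) F.g = mmon β y * H y *
        ∏ l, Complex.exp (-(exb F T : ℂ) * (sv A y l / D)) := by
      rw [h1, mul_right_comm, ← Finset.prod_mul_distrib]
      have h4 : ∀ l, Complex.exp (sv A y l / ((F.mat T).det : ℂ)) ^ exb F T *
          Complex.exp (-(exb F T : ℂ) * (sv A y l / D)) = 1 := by
        intro l
        rw [← Complex.exp_nat_mul, ← Complex.exp_add]
        rw [show (exb F T : ℂ) * (sv A y l / ((F.mat T).det : ℂ)) +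
          -(exb F T : ℂ) * (sv A y l / D) = 0 by rw [hDdef]; ring, Complex.exp_zero]
      simp only [h4, Finset.prod_const_one, one_mul]
    rw [h3, prod_xs]
    ring

variable (F T) in
open Classical in
/-- the exponents of the factor `(e, i)` near `P` -/
noncomputable def muT (σ : K →+* ℂ) (P : Fin (d + 1) → ℂ) (e : Fin m) (i : Fin (F.r e + 1)) :
    Fin (d + 1) → ℕ :=
  if ∏ j, P j ^ F.al e j = σ (F.z e i) then stp (top F T e) else 0

theorem exists_fac (σ : K →+* ℂ) (hT : (F.mat T).det ≠ 0) {e : Fin m} (hα : F.al e ≠ 0)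
    {i : Fin (F.r e + 1)} (hz : F.z e i ≠ 0) {A : Fin (d + 1) → Fin (d + 1) → ℕ}
    (hA : ∀ i j, A i j ≠ 0) :
    ∃ h : (Fin d → ℂ) × ℂ → ℂ, ContDiff ℂ 2 h ∧ h 0 ≠ 0 ∧ ∀ y,
      ∏ j, xs F T P (sv A y) j ^ F.al e j - σ (F.z e i) =
        mmon (fun j => ∑ l, muT F T σ P e i l * A l j) y * h y := by
  have hz' : σ (F.z e i) ≠ 0 := (map_ne_zero σ).2 hz
  by_cases hPe : ∏ j, P j ^ F.al e j = σ (F.z e i)
  · set k := top F T e with hk
    set q := qv F T (F.al e) with hq
    have hqk : q k ≠ 0 := qv_top (exists_qv hT hα)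
    have hql : ∀ l, k < l → q l = 0 := by
      intro l hl
      by_contra h
      exact absurd (le_top h) (not_le.2 hl)
    refine ⟨fun y => σ (F.z e i) * (rho q k (ch A y) * E (∑ l, q l * sv A y l)), ?_, ?_,
      fun y => ?_⟩
    · exact contDiff_const.mul (((contDiff_rho q k).comp contDiff_ch).mul
        (contDiff_E.comp (ContDiff.sum fun l _ => contDiff_const.mul (contDiff_sv A l))))
    · refine mul_ne_zero hz' (mul_ne_zero ?_ ?_)
      · rw [ch_zero hA, rho_zero hql]
        exact hqk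
      · have h0 : ∑ l, q l * sv A 0 l = 0 :=
          Finset.sum_eq_zero fun l _ => by rw [sv_zero hA, mul_zero]
        rw [h0, E_zero]
        exact one_ne_zero
    · rw [prod_xs, hPe]
      have h1 : σ (F.z e i) * Complex.exp (∑ l, qv F T (F.al e) l * sv A y l) - σ (F.z e i) =
          σ (F.z e i) * (Complex.exp (∑ l, q l * sv A y l) - 1) := by ring
      rw [h1, exp_sub_one]
      have h2 : ∑ l, q l * sv A y l = mmon (stp k) (ch A y) * rho q k (ch A y) :=
        lin_eq hql (ch A y)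
      have h3 : mmon (stp k) (ch A y) =
          mmon (fun j => ∑ l, muT F T σ P e i l * A l j) y := by
        rw [mmon_ch]
        unfold muT
        rw [if_pos hPe]
      rw [← h3]
      nth_rewrite 1 [h2]
      ring
  · refine ⟨fun y => ∏ j, xs F T P (sv A y) j ^ F.al e j - σ (F.z e i), ?_, ?_, fun y => ?_⟩
    · simp only [prod_xs]
      exact (contDiff_const.mul (Complex.contDiff_exp.comp
        (ContDiff.sum fun l _ => contDiff_const.mul (contDiff_sv A l)))).sub contDiff_const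
    · simp only [prod_xs]
      have h0 : ∑ l, qv F T (F.al e) l * sv A 0 l = 0 :=
        Finset.sum_eq_zero fun l _ => by rw [sv_zero hA, mul_zero]
      rw [h0, Complex.exp_zero, mul_one, sub_ne_zero]
      exact hPe
    · rw [mmon_zero_eq, one_mul]
      intro j
      unfold muT
      rw [if_neg hPe]
      exact Finset.sum_eq_zero fun l _ => Nat.zero_mul _

end Arr

end Pool.Agent.K7.H1.TO
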