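import Pool.Agent.K7.H1.TO.Pts
import Pool.Agent.K7.H1.TO.Eng
set_option autoImplicit false

/-!
Tori near the vertices of the arrangement.
-/

namespace Pool.Agent.K7.H1.TO

open MvPolynomial

open Pool.Agent.TH826.MK

open Pool.Agent.TH577.UA (mmon contDiff_mmon stp mrow yrow det_yrow)

open Pool.Agent.K7.H1.AH (mmon_eq)

namespace Arr

variable {K : Type*} [Field K] {d m : ℕ} {F : Arr K d m}

variable (F) in
/-- the leading coefficients -/
noncomputable def lead (σ : K →+* ℂ) (T : Fin (d + 1) → Fin m) (P : Fin (d + 1) → ℂ)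
    (T' : Fin (d + 1) → Fin m) (k' : ∀ l, Fin (F.r (T' l))) : ℝ :=
  (Matrix.of fun l j => (muT F T σ P (T' l) (k' l).succ j : ℝ) - muT F T σ P (T' l) 0 j).det

theorem exists_torus (σ : K →+* ℂ) {T : Fin (d + 1) → Fin m} (hT : (F.mat T).det ≠ 0)
    {P : Fin (d + 1) → ℂ} (hP : ∀ j, P j ≠ 0) (hα : ∀ e, F.al e ≠ 0)
    (hz : ∀ e i, F.z e i ≠ 0) (hg : F.g ≠ 0) {k : ∀ l, Fin (F.r (T l))}
    (hk : ∀ l, ∏ j, P j ^ F.al (T l) j = σ (F.z (T l) (k l).succ))
    {I : Type*} [Fintype I] [Nonempty I] (Tp : I → Fin (d + 1) → Fin m)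
    (kp : ∀ i l, Fin (F.r (Tp i l))) :
    ∃ D : ℝ, D ≠ 0 ∧ ∀ ε : ℝ, 0 < ε →
    ∃ Λ : ℝ, 1 < Λ ∧ ∀ lam : K, Λ ≤ ‖σ lam‖ → ∃ Γ : Torus (F.TRing lam) d,
      (∀ θ x, Γ.e θ (F.tcst lam x) = σ x) ∧
      (∀ θ, ∃ j, Γ.e θ (F.tpol lam (dlog j (F.Phi lam))) ≠ 0) ∧
      ∀ i, |Γ.reg (symb (F.ent lam (Tp i) (kp i))) / (-Real.log ‖σ lam‖) -
          F.lead σ T P (Tp i) (kp i) * D| ≤ ε := by
  classical
  obtain ⟨A, β, H, hA, hAdet, hHc, hH0, hHe⟩ := exists_gchart (F := F) (T := T) σ hT hP hg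
  choose h hcd hne hfac using fun (e : Fin m) (i : Fin (F.r e + 1)) =>
    exists_fac (F := F) (T := T) (P := P) σ hT (hα e) (hz e i) hA
  let ι : Type := Option ((e : (e : Fin m) × Fin (F.r e + 1)) × Fin (F.w e.1 e.2 + 1))
  set μ : ι → Fin (d + 1) → ℕ := fun e => Option.elim e β
    fun e => fun j => ∑ l, muT F T σ P e.1.1 e.1.2 l * A l j with hμ
  set N : Fin d → ℕ := fun k => ∑ e, μ e k.succ with hN
  set r : ℕ := ∑ e, μ e 0 with hr
  have hr0 : 0 < r := by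
    have h1 : μ (some ⟨⟨T 0, (k 0).succ⟩, 0⟩) 0 ≤ r :=
      Finset.single_le_sum (f := fun e => μ e 0) (fun _ _ => Nat.zero_le _) (Finset.mem_univ _)
    refine lt_of_lt_of_le ?_ h1
    show 0 < ∑ l, muT F T σ P (T 0) (k 0).succ l * A l 0
    have h2 : muT F T σ P (T 0) (k 0).succ 0 = 1 := by
      unfold muT
      rw [if_pos (hk 0), top_T hT]
      unfold stp
      rw [if_pos le_rfl]
    have h3 : muT F T σ P (T 0) (k 0).succ 0 * A 0 0 ≤
        ∑ l, muT F T σ P (T 0) (k 0).succ l * A l 0 :=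
      Finset.single_le_sum (f := fun l => muT F T σ P (T 0) (k 0).succ l * A l 0)
        (fun _ _ => Nat.zero_le _) (Finset.mem_univ _)
    rw [h2, one_mul] at h3
    have h4 := hA 0 0
    omega
  refine ⟨(2 * Real.pi) ^ d * ((Matrix.of fun i j => (A i j : ℝ)).det *
    (Matrix.of (yrow r N)).det), mul_ne_zero
    (pow_ne_zero _ (by have := Real.pi_pos; positivity)) (mul_ne_zero hAdet (det_yrow hr0 N)),
    fun ε hε => ?_⟩
  set hh : ι → (Fin d → ℂ) × ℂ → ℂ := fun e y =>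
    Option.elim e (H y) fun e => h e.1.1 e.1.2 y with hhh
  have hhc : ∀ e, ContDiff ℂ 2 (hh e) := fun e => by
    cases e with
    | none => exact hHc
    | some e => exact hcd e.1.1 e.1.2
  have hh0 : ∀ e, hh e 0 ≠ 0 := fun e => by
    cases e with
    | none => exact hH0
    | some e => exact hne e.1.1 e.1.2
  set HH : ι → (Fin d → ℂ) × ℂ → ℂ := fun e y => Option.elim e
    (eval₂ σ (xs F T P (sv A y)) F.g * ∏ j, xs F T P (sv A y) j ^ (-F.ga) j)
    fun e => ∏ j, xs F T P (sv A y) j ^ F.al e.1.1 j - σ (F.z e.1.1 e.1.2) with hHH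
  have hHHe : ∀ e y, HH e y = mmon (μ e) y * hh e y := fun e y => by
    cases e with
    | none => exact hHe y
    | some e => exact hfac e.1.1 e.1.2 y
  set Hu : (Fin d → ℂ) × ℂ → ℂ := fun y => ∏ e, hh e y with hHu
  have hHuc : ContDiff ℂ 2 Hu := contDiff_prod fun e _ => hhc e
  have hHu0 : Hu 0 ≠ 0 := Finset.prod_ne_zero_iff.2 fun e _ => hh0 e
  let pi : I → Fin (d + 1) → ι := fun i l => some ⟨⟨Tp i l, (kp i l).succ⟩, 0⟩
  let qi : I → Fin (d + 1) → ι := fun i l => some ⟨⟨Tp i l, 0⟩, 0⟩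
  obtain ⟨η0, hη0, hX⟩ := engine (r := r) (N := N) hHHe hhc hh0 rfl hr0 (fun k => rfl)
    (Pool.Agent.K7.H1.AH.eventually_lt_norm hHuc hHu0) pi qi hε
  refine ⟨1 / η0 + 2, by
    have : 0 < 1 / η0 := by positivity
    linarith, fun lam hlam => ?_⟩
  have hinvpos : 0 < 1 / η0 := by positivity
  have hln : 0 < ‖σ lam‖ := by linarith
  have hl0 : σ lam ≠ 0 := norm_pos_iff.1 hln
  have hη : ‖(σ lam)⁻¹‖ < η0 := by
    rw [norm_inv, inv_lt_comm₀ hln hη0, ← one_div]
    linarith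
  obtain ⟨-, U, hUc, hUp, hUe, hUP, hUg, hUest⟩ := hX _ (inv_ne_zero hl0) hη
  have hlogeq : Real.log ‖(σ lam)⁻¹‖ = -Real.log ‖σ lam‖ := by rw [norm_inv, Real.log_inv]
  rw [hlogeq] at hUest
  set X : (Fin d → ℝ) → (Fin (d + 1) → ℂ) := fun θ => xs F T P (sv A (U θ)) with hXdef
  have hXc : ContDiff ℝ 2 X := ((contDiff_xs F T P A).restrict_scalars ℝ).comp hUc
  have hXp : ∀ θ i, X (θ + Pi.single i 1) = X θ := fun θ i => by
    simp only [hXdef, hUp]
  have hx0 : ∀ y j, xs F T P (sv A y) j ≠ 0 := fun y j => xs_ne hP _ j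
  have hprod : ∀ y, eval₂ σ (vals (xs F T P (sv A y))) (F.Phi lam) =
      σ lam * ∏ e, HH e y := fun y => by
    rw [eval_Phi (hx0 y), Fintype.prod_option, mul_assoc]
    congr 2
    rw [Fintype.prod_sigma]
    simp only [hHH, Option.elim, Finset.prod_const, Finset.card_univ, Fintype.card_fin]
    rw [Fintype.prod_sigma]
  have hPt : ∀ θ, PtT σ F lam (X θ) := fun θ => by
    refine ⟨hx0 (U θ), ?_⟩
    show eval₂ σ (vals (xs F T P (sv A (U θ)))) (F.Phi lam) = 1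
    rw [hprod, hUe]
    exact mul_inv_cancel₀ hl0
  have hgr : ∀ θ, ∃ j, (mkT X hXc hXp hPt).e θ (F.tpol lam (dlog j (F.Phi lam))) ≠ 0 := by
    intro θ
    have h1 : ∃ j, eval₂ σ (vals (xs F T P (sv A (U θ)))) (dlog j (F.Phi lam)) ≠ 0 := by
      refine grad_ne' (ν := fun j => ∑ e, μ e j) (Hu := fun y => σ lam * Hu y)
        (xc := fun y => xs F T P (sv A y)) (contDiff_xs F T P A) hx0 (fun y => ?_)
        (contDiff_const.mul hHuc) ?_ ?_ ?_
      · rw [hprod]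
        simp only [hHHe]
        rw [Finset.prod_mul_distrib]
        have h5 : ∏ e, mmon (μ e) y = mmon (fun j => ∑ e, μ e j) y := by
          simp only [mmon_eq, ← Finset.prod_pow_eq_pow_sum]
          exact Finset.prod_comm
        rw [h5]
        ring
      · refine lt_of_lt_of_le hr0 ?_
        exact Finset.single_le_sum (f := fun j => ∑ e, μ e j) (fun _ _ => Nat.zero_le _)
          (Finset.mem_univ _)
      · have h6 := hUP θ
        have h7 : fderiv ℂ (fun y => σ lam * Hu y) (U θ) = σ lam • fderiv ℂ Hu (U θ) :=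
          fderiv_const_mul ((hHuc.differentiable (by norm_num)) (U θ)) _
        rw [h7, norm_mul]
        show ‖σ lam • (fderiv ℂ Hu (U θ) (U θ))‖ < _
        rw [norm_smul]
        exact mul_lt_mul_of_pos_left h6 hln
      · have h5 := (hPt θ).2
        intro h0
        rw [show eval₂ σ (vals (X θ)) (F.Phi lam) = 0 from h0] at h5
        exact zero_ne_one h5
    obtain ⟨j, hj⟩ := h1
    refine ⟨j, ?_⟩
    have h2 : (mkT X hXc hXp hPt).e θ (F.tpol lam (dlog j (F.Phi lam))) =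
        eval₂ σ (vals (X θ)) (dlog j (F.Phi lam)) := evT_tpol (hPt θ) _
    rw [h2]
    exact hj
  refine ⟨mkT X hXc hXp hPt, fun θ x => evT_tcst (hPt θ) x, hgr, fun i => ?_⟩
  set Γ := mkT X hXc hXp hPt with hΓ
  have hfin : F.lead σ T P (Tp i) (kp i) * ((2 * Real.pi) ^ d *
      ((Matrix.of fun i j => (A i j : ℝ)).det * (Matrix.of (yrow r N)).det)) =
      (2 * Real.pi) ^ d * (Matrix.of fun l j => mrow r N (μ (pi i l)) j -
        mrow r N (μ (qi i l)) j).det := by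
    have h1 := lead_gen A r N (fun l => muT F T σ P (Tp i l) (kp i l).succ)
      (fun l => muT F T σ P (Tp i l) 0)
    unfold lead
    rw [show (Matrix.of fun l j => mrow r N (μ (pi i l)) j - mrow r N (μ (qi i l)) j) =
      Matrix.of fun l j => mrow r N (fun j => ∑ s, muT F T σ P (Tp i l) (kp i l).succ s * A s j) j -
        mrow r N (fun j => ∑ s, muT F T σ P (Tp i l) 0 s * A s j) j from rfl, h1]
    ring
  rw [Torus.reg_symb, hfin]
  refine hUest i (fun l => Γ.fn (F.ent lam (Tp i) (kp i) l : F.TRing lam))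
    (fun l => Γ.good _) (fun l θ => ?_)
  have h1 : HH (qi i l) (U θ) = Γ.e θ (F.tf lam (Tp i l) 0 : F.TRing lam) :=
    (evT_tf (hPt θ) _ _).symm
  have h2 : HH (pi i l) (U θ) = Γ.e θ (F.tf lam (Tp i l) (kp i l).succ : F.TRing lam) :=
    (evT_tf (hPt θ) _ _).symm
  rw [h1, h2]
  unfold Torus.fn
  rw [← map_mul]
  congr 1
  unfold ent
  rw [← Units.val_mul, div_mul_cancel]

end Arr

end Pool.Agent.K7.H1.TO
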